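import Pool.Agent.V11291.GS.Up
import Pool.Agent.V11291.ME.Glue

/-!
# Sectors with arbitrary vertex, and the whole plane
-/

set_option autoImplicit false

open MeasureTheory Filter Topology Set Complex
open Pool.Agent.V11291.ME (dv dv_analytic dv_mero order_zero dv_ne an_of)

namespace Pool.Agent.V11291.GS

lemma Q_mono {A B : ℝ} (h : A ≤ B) : Q A ⊆ Q B := fun s hs => by
  have h1 : |s.im| < s.re + A := hs
  change |s.im| < s.re + B
  linarith

lemma Q_shift {A : ℝ} {s : ℂ} : s ∈ Q A ↔ s + A ∈ Q 0 := by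
  change |s.im| < s.re + A ↔ |(s + A).im| < (s + A).re + 0
  simp

/-- two such functions which agree to the right of `σ` -/
lemma dv_agree' {U : Set ℂ} (hUo : IsOpen U) (hUc : Convex ℝ U) {σ x₀ : ℝ} (hx : (x₀ : ℂ) ∈ U)
    (hσ : σ < x₀) {H₁ H₂ : ℂ → ℂ} {Z₁ Z₂ : Finset ℂ} {m₁ m₂ : ℂ → ℤ}
    (h₁ : ∀ s ∈ U, DifferentiableAt ℂ H₁ s) (h₂ : ∀ s ∈ U, DifferentiableAt ℂ H₂ s)
    (h : ∀ s ∈ U, σ < s.re → dv H₁ Z₁ m₁ s = dv H₂ Z₂ m₂ s) :
    ∀ s ∈ U, s ∉ Z₁ → s ∉ Z₂ → dv H₁ Z₁ m₁ s = dv H₂ Z₂ m₂ s := by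
  intro s hs hs1 hs2
  have hm : MeromorphicOn (fun s => dv H₁ Z₁ m₁ s - dv H₂ Z₂ m₂ s) U := fun z hz =>
    (dv_mero (an_of hUo h₁ hz)).sub (dv_mero (an_of hUo h₂ hz))
  have htop : meromorphicOrderAt (fun s => dv H₁ Z₁ m₁ s - dv H₂ Z₂ m₂ s) (x₀ : ℂ) = ⊤ := by
    rw [meromorphicOrderAt_eq_top_iff]
    have ho : IsOpen {z : ℂ | σ < z.re} := isOpen_lt continuous_const Complex.continuous_re
    refine Eventually.filter_mono nhdsWithin_le_nhds ?_
    filter_upwards [hUo.mem_nhds hx, ho.mem_nhds (show σ < (x₀ : ℂ).re by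
      rwa [Complex.ofReal_re])] with z hz1 hz2
    rw [h z hz1 hz2, sub_self]
  have hs3 : meromorphicOrderAt (fun s => dv H₁ Z₁ m₁ s - dv H₂ Z₂ m₂ s) s = ⊤ := by
    by_contra hne
    exact hm.meromorphicOrderAt_ne_top_of_isPreconnected hUc.isPreconnected hs hx hne htop
  rw [meromorphicOrderAt_eq_top_iff] at hs3
  have hc : ContinuousAt (fun s => dv H₁ Z₁ m₁ s - dv H₂ Z₂ m₂ s) s :=
    ((dv_analytic (an_of hUo h₁ hs) hs1).sub
      (dv_analytic (an_of hUo h₂ hs) hs2)).continuousAt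
  have h3 : Tendsto (fun s => dv H₁ Z₁ m₁ s - dv H₂ Z₂ m₂ s) (𝓝[≠] s)
      (𝓝 (dv H₁ Z₁ m₁ s - dv H₂ Z₂ m₂ s)) := hc.tendsto.mono_left nhdsWithin_le_nhds
  have h4 : Tendsto (fun s => dv H₁ Z₁ m₁ s - dv H₂ Z₂ m₂ s) (𝓝[≠] s) (𝓝 0) :=
    tendsto_const_nhds.congr' (hs3.mono fun z hz => hz.symm)
  exact sub_eq_zero.1 (tendsto_nhds_unique h3 h4)

/-- every point is in a sector -/
lemma exists_Q (s : ℂ) : ∃ n : ℕ, s ∈ Q n := by
  obtain ⟨n, hn⟩ := exists_nat_gt (|s.im| - s.re)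
  exact ⟨n, by change |s.im| < s.re + n; linarith⟩

/-- **gluing** -/
theorem glueP {L : ℂ → ℂ} {σ : ℝ} (hσ : 0 < σ) (h : ∀ A₀ : ℝ, ∃ A : ℝ, A₀ ≤ A ∧
      ∃ (H : ℂ → ℂ) (Z : Finset ℂ) (m : ℂ → ℤ),
      (∀ s ∈ Q A, DifferentiableAt ℂ H s ∧ H s ≠ 0) ∧
      ∀ s ∈ Q A, σ < s.re → L s = H s * ∏ β ∈ Z, (s - β) ^ m β) :
    ∃ f : ℂ → ℂ, MeromorphicOn f univ ∧ ∀ s : ℂ, σ < s.re → f s = L s := by
  classical
  choose A hA H Z m h1 h2 using fun n : ℕ => h n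
  have hsub : ∀ n : ℕ, Q n ⊆ Q (A n) := fun n => Q_mono (hA n)
  have hmono : ∀ k n : ℕ, k ≤ n → Q (k : ℝ) ⊆ Q (n : ℝ) := fun k n hkn =>
    Q_mono (by exact_mod_cast hkn)
  have hcomp : ∀ k n : ℕ, k ≤ n → ∀ s ∈ Q (k : ℝ), s ∉ Z k → s ∉ Z n →
      dv (H k) (Z k) (m k) s = dv (H n) (Z n) (m n) s := by
    intro k n hkn
    have hx : (((σ + 1 : ℝ)) : ℂ) ∈ Q (k : ℝ) := by
      change |((σ + 1 : ℝ) : ℂ).im| < ((σ + 1 : ℝ) : ℂ).re + k
      rw [Complex.ofReal_im, Complex.ofReal_re, abs_zero]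
      positivity
    exact dv_agree' (Q_open _) (Q_convex _) hx (lt_add_one σ)
      (fun s hs => (h1 k s (hsub k hs)).1) (fun s hs => (h1 n s (hsub n (hmono k n hkn hs))).1)
      fun s hs h3 => (h2 k s (hsub k hs) h3).symm.trans (h2 n s (hsub n (hmono k n hkn hs)) h3)
  set f : ℂ → ℂ := fun s => if hs : ∃ n : ℕ, s ∈ Q (n : ℝ) then
    dv (H (Nat.find hs)) (Z (Nat.find hs)) (m (Nat.find hs)) s else 0 with hf
  have hfG : ∀ n : ℕ, ∀ s ∈ Q (n : ℝ), f =ᶠ[𝓝[≠] s] dv (H n) (Z n) (m n) := by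
    intro n s hs
    set B : Finset ℂ := (Finset.range (n + 1)).biUnion Z with hB
    have hBc : IsOpen ((B : Set ℂ) \ {s})ᶜ :=
      ((B.finite_toSet.subset sdiff_subset).isClosed).isOpen_compl
    have e1 : ((B : Set ℂ) \ {s})ᶜ ∈ 𝓝 s := hBc.mem_nhds (fun h => h.2 rfl)
    filter_upwards [mem_nhdsWithin_of_mem_nhds e1, self_mem_nhdsWithin,
      mem_nhdsWithin_of_mem_nhds ((Q_open _).mem_nhds hs)] with z hz1 hz2 hz3
    have hzB : z ∉ B := fun h => hz1 ⟨h, hz2⟩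
    have hex : ∃ n : ℕ, z ∈ Q (n : ℝ) := ⟨n, hz3⟩
    have hle : Nat.find hex ≤ n := Nat.find_min' hex hz3
    rw [hf]
    simp only
    rw [dif_pos hex]
    refine hcomp _ _ hle z (Nat.find_spec hex) (fun h => hzB ?_) (fun h => hzB ?_)
    · exact Finset.mem_biUnion.2 ⟨_, Finset.mem_range.2 (by omega), h⟩
    · exact Finset.mem_biUnion.2 ⟨n, Finset.mem_range.2 (by omega), h⟩
  refine ⟨f, fun s _ => ?_, fun s hs => ?_⟩
  · obtain ⟨n, hn⟩ := exists_Q s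
    exact (dv_mero (an_of (Q_open _) (fun s hs => (h1 n s (hsub n hs)).1) hn)).congr
      (hfG n s hn).symm
  · have hex : ∃ n : ℕ, s ∈ Q (n : ℝ) := exists_Q s
    rw [hf]
    simp only
    rw [dif_pos hex]
    exact (h2 _ s (hsub _ (Nat.find_spec hex)) hs).symm

/-- **the factorisation** -/
theorem extractP {U : Set ℂ} (hUo : IsOpen U) (hUc : Convex ℝ U) {f L : ℂ → ℂ} {σ x₀ : ℝ}
    (hx0 : (x₀ : ℂ) ∈ U) (hσ : σ < x₀) (hf : MeromorphicOn f U)
    (hfin : {s : ℂ | s ∈ U ∧ meromorphicOrderAt f s ≠ 0}.Finite)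
    (hL : ∀ s ∈ U, σ < s.re → DifferentiableAt ℂ L s ∧ L s ≠ 0)
    (he : ∀ s ∈ U, σ < s.re → f s = L s) :
    ∃ (H : ℂ → ℂ) (Z : Finset ℂ), (∀ β, β ∈ Z ↔ β ∈ U ∧ meromorphicOrderAt f β ≠ 0) ∧
      (∀ s ∈ U, DifferentiableAt ℂ H s ∧ H s ≠ 0) ∧ (∀ β ∈ Z, β.re ≤ σ) ∧
      ∀ s ∈ U, σ < s.re → L s = H s * ∏ β ∈ Z, (s - β) ^ (meromorphicOrderAt f β).untop₀ := by
  set R : Set ℂ := U ∩ {s : ℂ | σ < s.re} with hR
  have hRo : IsOpen R := hUo.inter (isOpen_lt continuous_const Complex.continuous_re)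
  have hRc : Convex ℝ R := hUc.inter (convex_halfSpace_re_gt _)
  have hLan : ∀ s ∈ R, AnalyticAt ℂ L s := fun s hs =>
    an_of hRo (fun s hs => (hL s hs.1 hs.2).1) hs
  have hord : ∀ s ∈ R, meromorphicOrderAt f s = 0 := by
    intro s hs
    have h1 : f =ᶠ[𝓝[≠] s] L := by
      refine Eventually.filter_mono nhdsWithin_le_nhds ?_
      filter_upwards [hRo.mem_nhds hs] with z hz
      exact he z hz.1 hz.2
    rw [meromorphicOrderAt_congr h1]
    exact order_zero (hLan s hs) (hL s hs.1 hs.2).2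
  have hx : (x₀ : ℂ) ∈ R := ⟨hx0, by
    change σ < (x₀ : ℂ).re
    rwa [Complex.ofReal_re]⟩
  have hne : ∀ u : U, meromorphicOrderAt f u ≠ ⊤ := fun u =>
    hf.meromorphicOrderAt_ne_top_of_isPreconnected hUc.isPreconnected hx.1 u.2
      (by rw [hord _ hx]; exact WithTop.coe_ne_top)
  set D := MeromorphicOn.divisor f U with hD
  have hDapp : ∀ s ∈ U, D s = (meromorphicOrderAt f s).untop₀ := fun s hs =>
    hf.divisor_apply hs
  have hsupp : ∀ s, D s ≠ 0 ↔ s ∈ U ∧ meromorphicOrderAt f s ≠ 0 := by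
    intro s
    constructor
    · intro hs
      have h1 : s ∈ U := D.supportWithinDomain hs
      refine ⟨h1, fun h2 => hs ?_⟩
      rw [hDapp s h1, h2]
      rfl
    · rintro ⟨h1, h2⟩ h3
      rw [hDapp s h1] at h3
      rcases WithTop.untop₀_eq_zero.1 h3 with h9 | h9
      · exact h2 h9
      · exact hne ⟨s, h1⟩ h9
  have hDfin : (D.support).Finite := hfin.subset fun s hs => (hsupp s).1 hs
  obtain ⟨g, hg1, hg2, hg3⟩ := hf.extract_zeros_poles hne hDfin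
  set Z : Finset ℂ := hDfin.toFinset with hZ
  have hfac : ∀ s, (∏ᶠ u, (· - u) ^ D u : ℂ → ℂ) s = ∏ β ∈ Z, (s - β) ^ D β := by
    intro s
    have h1 := Function.FactorizedRational.finprod_eq_fun (𝕜 := ℂ) (d := D) hDfin
    rw [h1]
    refine finprod_eq_prod_of_mulSupport_subset _ fun u hu => ?_
    rw [hZ, Set.Finite.coe_toFinset]
    intro h2
    apply hu
    change (s - u) ^ D u = 1
    rw [show D u = 0 from h2, zpow_zero]
  have hZm : ∀ β, β ∈ Z ↔ β ∈ U ∧ meromorphicOrderAt f β ≠ 0 := fun β => by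
    rw [hZ, Set.Finite.mem_toFinset]
    exact hsupp β
  have hZr : ∀ β ∈ Z, β.re ≤ σ := by
    intro β hβ
    obtain ⟨h2, h3⟩ := (hZm β).1 hβ
    by_contra h4
    push Not at h4
    exact h3 (hord β ⟨h2, h4⟩)
  refine ⟨g, Z, hZm, fun s hs => ⟨(hg1 s hs).differentiableAt, hg2 ⟨s, hs⟩⟩, hZr, ?_⟩
  have hlin : ∀ s ∈ R, s ∉ Z := fun s hs h => by
    have h1 : σ < s.re := hs.2
    linarith [hZr s h]
  have a1 : AnalyticOnNhd ℂ L R := fun s hs => hLan s hs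
  have a2 : AnalyticOnNhd ℂ (dv g Z D) R := fun s hs => dv_analytic (hg1 s hs.1) (hlin s hs)
  have hfr : ∃ᶠ z in 𝓝[≠] (x₀ : ℂ), L z = dv g Z D z := by
    have hacc : AccPt (x₀ : ℂ) (𝓟 U) := by
      have h1 : 𝓝[≠] (x₀ : ℂ) ≤ 𝓟 U := by
        rw [le_principal_iff]
        exact mem_nhdsWithin_of_mem_nhds (hUo.mem_nhds hx.1)
      unfold AccPt
      rw [inf_eq_left.2 h1]
      infer_instance
    have h1 : f =ᶠ[𝓝[≠] (x₀ : ℂ)] (∏ᶠ u, (· - u) ^ D u) • g := by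
      refine MeromorphicAt.eventuallyEq_nhdsNE_of_eventuallyEq_codiscreteWithin (hf _ hx.1) ?_ hx.1
        hacc hg3
      exact ((Function.FactorizedRational.meromorphicNFOn D U).meromorphicOn _ hx.1).smul
        (hg1 _ hx.1).meromorphicAt
    refine Eventually.frequently ?_
    filter_upwards [h1, mem_nhdsWithin_of_mem_nhds (hRo.mem_nhds hx)] with z hz1 hz2
    rw [← he z hz2.1 hz2.2, hz1]
    unfold dv
    rw [← hfac z, mul_comm]
    rfl
  have a3 := a1.eqOn_of_preconnected_of_frequently_eq a2 hRc.isPreconnected hx hfr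
  intro s hs hσs
  have h1 := a3 ⟨hs, hσs⟩
  rw [h1]
  unfold dv
  congr 1
  refine Finset.prod_congr rfl fun β hβ => ?_
  rw [hDapp β ((hZm β).1 hβ).1]

/-- a function meromorphic in the plane has finitely many zeros and poles in each sector, if it has none
to the right of `σ` -/
theorem finiteP {f : ℂ → ℂ} (hf : MeromorphicOn f univ) {σ : ℝ} (hσ : 0 < σ)
    (h : ∀ s : ℂ, σ < s.re → meromorphicOrderAt f s = 0) {A : ℝ} (hA : 0 ≤ A) :
    {s : ℂ | s ∈ Q A ∧ meromorphicOrderAt f s ≠ 0}.Finite := by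
  set R : ℝ := (A + σ) + (σ + A) with hR
  have hB : IsCompact (Metric.closedBall (0 : ℂ) R) := isCompact_closedBall _ _
  have hm : MeromorphicOn f (Metric.closedBall (0 : ℂ) R) := fun z _ => hf z (mem_univ z)
  refine ((MeromorphicOn.divisor f (Metric.closedBall (0 : ℂ) R)).finiteSupport hB).subset
    fun s hs => ?_
  obtain ⟨h1, h2⟩ := hs
  have h3 : s.re ≤ σ := by
    by_contra h4
    push Not at h4
    exact h2 (h s h4)
  have h4 : |s.im| < s.re + A := h1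
  have h6 : s ∈ Metric.closedBall (0 : ℂ) R := by
    rw [Metric.mem_closedBall, dist_zero_right]
    refine (Complex.norm_le_abs_re_add_abs_im s).trans ?_
    have h5 : |s.re| ≤ A + σ := by
      rw [abs_le]
      have := abs_nonneg s.im
      constructor <;> linarith
    rw [hR]
    linarith
  have h7 : meromorphicOrderAt f s ≠ ⊤ :=
    hf.meromorphicOrderAt_ne_top_of_isPreconnected isPreconnected_univ
      (mem_univ ((σ + 1 : ℝ) : ℂ)) (mem_univ s) (by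
        rw [h _ (by rw [Complex.ofReal_re]; linarith)]
        exact WithTop.coe_ne_top)
  change MeromorphicOn.divisor f (Metric.closedBall (0 : ℂ) R) s ≠ 0
  rw [hm.divisor_apply h6]
  intro h8
  rcases WithTop.untop₀_eq_zero.1 h8 with h9 | h9
  · exact h2 h9
  · exact h7 h9

variable {ι : Type*} {x : ι → ℝ} {c : ι → ℂ} {δ σ : ℝ}

/-- the coefficients of the shifted series -/
noncomputable def cA (x : ι → ℝ) (c : ι → ℂ) (A : ℝ) (i : ι) : ℂ := c i * (Real.exp (A * x i) : ℂ)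

lemma ll_shift (A : ℝ) (s : ℂ) : ll x (cA x c A) s = ll x c (s - A) := by
  unfold ll cA
  refine tsum_congr fun i => ?_
  rw [mul_assoc]
  congr 1
  push_cast
  rw [← Complex.exp_add]
  congr 1
  ring

/-- the expansion at the vertex `-A` -/
def Ex (x : ι → ℝ) (c : ι → ℂ) (A : ℝ) (Z : Finset ℂ) (m : ℂ → ℤ) : Prop :=
  ∀ ε : ℝ, 0 < ε → ∃ C : ℝ, ∀ᶠ T : ℝ in atTop,
    ‖G x (cA x c A) T + ∑ β ∈ Z, (m β : ℂ) * exp ((β + A) ^ 2 * T)‖ ≤ C * Real.exp (ε * T)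

/-- the shifted divisor -/
noncomputable def sh (A : ℝ) (Z : Finset ℂ) : Finset ℂ := Z.map (addRightEmbedding (A : ℂ))

lemma mem_sh {A : ℝ} {Z : Finset ℂ} {γ : ℂ} (h : γ ∈ sh A Z) : γ - A ∈ Z := by
  unfold sh at h
  obtain ⟨β, hβ, rfl⟩ := Finset.mem_map.1 h
  simpa using hβ

lemma ex_iff (A : ℝ) (Z : Finset ℂ) (m : ℂ → ℤ) :
    Ex x c A Z m ↔ Exps (G x (cA x c A)) (sh A Z) (fun γ => m (γ - A)) := by
  unfold Ex Exps sh
  simp only [Finset.sum_map, addRightEmbedding_apply, add_sub_cancel_right]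

/-- continuation to the sector and to the right of `σ`, with the given divisor -/
def Cw (L : ℂ → ℂ) (σ A : ℝ) (Z : Finset ℂ) (m : ℂ → ℤ) : Prop :=
  ∃ H : ℂ → ℂ, (∀ s : ℂ, s ∈ Q A ∨ σ < s.re → DifferentiableAt ℂ H s ∧ H s ≠ 0) ∧
    ∀ s : ℂ, σ < s.re → L s = H s * ∏ β ∈ Z, (s - β) ^ m β

namespace GD

lemma shifted (D : GD x c δ σ) {A : ℝ} (hA : 0 ≤ A) : GD x (cA x c A) δ (σ + A) where
  δ0 := D.δ0
  σ0 := by linarith [D.σ0]
  ge := D.ge
  sum := by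
    refine D.sum.congr fun i => ?_
    unfold cA
    rw [norm_mul, Complex.norm_real, Real.norm_of_nonneg (Real.exp_pos _).le, mul_assoc,
      ← Real.exp_add]
    congr 2
    ring

lemma ex_of (D : GD x c δ σ) [Countable ι] {A : ℝ} (hA : 0 ≤ A) {Z : Finset ℂ} {m : ℂ → ℤ}
    (hZ : ∀ β ∈ Z, β ∈ Q A) {H : ℂ → ℂ} (hH : ∀ s ∈ Q A, DifferentiableAt ℂ H s ∧ H s ≠ 0)
    (he : ∀ s ∈ Q A, σ < s.re → exp (ll x c s) = H s * ∏ β ∈ Z, (s - β) ^ m β) :
    Ex x c A Z m := by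
  rw [ex_iff]
  have hq : ∀ s : ℂ, s ∈ Q 0 → s - A ∈ Q A := fun s hs => by
    rw [Q_shift, sub_add_cancel]
    exact hs
  refine (D.shifted hA).up (H := fun s => H (s - A)) (fun γ hγ => ?_) (fun s hs => ?_)
    (σ' := σ + A) (by linarith) (fun s hs h1 => ?_)
  · have := Q_shift.1 (hZ _ (mem_sh hγ))
    rwa [sub_add_cancel] at this
  · obtain ⟨h1, h2⟩ := hH _ (hq s hs)
    exact ⟨h1.comp s (by fun_prop), h2⟩
  · have h2 : σ < (s - A).re := by
      rw [Complex.sub_re, Complex.ofReal_re]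
      linarith
    rw [ll_shift, he _ (hq s hs) h2]
    congr 1
    unfold sh
    rw [Finset.prod_map]
    refine Finset.prod_congr rfl fun β _ => ?_
    simp only [addRightEmbedding_apply, add_sub_cancel_right]
    congr 1
    ring

lemma cw_of (D : GD x c δ σ) [Countable ι] {A : ℝ} (hA : 0 ≤ A) {Z : Finset ℂ} {m : ℂ → ℤ}
    (hZ : ∀ β ∈ Z, β ∈ Q A ∧ β.re ≤ σ) (h : Ex x c A Z m) :
    Cw (fun s => exp (ll x c s)) σ A Z m := by
  rw [ex_iff] at h
  obtain ⟨H, h1, h2⟩ := (D.shifted hA).down (fun γ hγ => by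
    obtain ⟨a1, a2⟩ := hZ _ (mem_sh hγ)
    rw [Q_shift, sub_add_cancel] at a1
    rw [Complex.sub_re, Complex.ofReal_re] at a2
    exact ⟨a1, by linarith⟩) h
  refine ⟨fun s => H (s + A), fun s hs => ?_, fun s hs => ?_⟩
  · have h3 : s + A ∈ Q 0 ∨ σ + A < (s + A).re := by
      rcases hs with hs | hs
      · exact Or.inl (Q_shift.1 hs)
      · refine Or.inr ?_
        rw [Complex.add_re, Complex.ofReal_re]
        linarith
    obtain ⟨a1, a2⟩ := h1 _ h3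
    exact ⟨a1.comp s (by fun_prop), a2⟩
  · have h3 := h2 (s + A) (by rw [Complex.add_re, Complex.ofReal_re]; linarith)
    rw [ll_shift, add_sub_cancel_right] at h3
    simp only
    rw [h3]
    congr 1
    unfold sh
    rw [Finset.prod_map]
    refine Finset.prod_congr rfl fun β _ => ?_
    simp only [addRightEmbedding_apply, add_sub_cancel_right]
    congr 1
    ring

/-- **the criterion for a sector** -/
theorem crit (D : GD x c δ σ) [Countable ι] {A : ℝ} (hA : 0 ≤ A) {Z : Finset ℂ} (m : ℂ → ℤ)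
    (hZ : ∀ β ∈ Z, β ∈ Q A ∧ β.re ≤ σ) :
    Cw (fun s => exp (ll x c s)) σ A Z m ↔ Ex x c A Z m := by
  refine ⟨?_, D.cw_of hA hZ⟩
  rintro ⟨H, h1, h2⟩
  exact D.ex_of hA (fun β hβ => (hZ β hβ).1) (fun s hs => h1 s (Or.inl hs))
    fun s _ hs => h2 s hs

lemma mono (D : GD x c δ σ) {τ : ℝ} (h : σ ≤ τ) : GD x c δ τ where
  δ0 := D.δ0
  σ0 := D.σ0.trans_le h
  ge := D.ge
  sum := by
    refine Summable.of_nonneg_of_le (fun i => by positivity) (fun i => ?_) D.sum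
    refine mul_le_mul_of_nonneg_left (Real.exp_le_exp.2 ?_) (norm_nonneg _)
    have := mul_le_mul_of_nonneg_right h (D.pos i).le
    linarith

/-- no zeros and poles to the right of `σ` -/
lemma order_right (D : GD x c δ σ) {f : ℂ → ℂ} (hf : MeromorphicOn f univ) {σ' : ℝ}
    (he : ∀ s : ℂ, σ' < s.re → f s = exp (ll x c s)) {s : ℂ} (hs : σ < s.re) :
    f =ᶠ[𝓝[≠] s] (fun s => exp (ll x c s)) ∧ meromorphicOrderAt f s = 0 := by
  set L : ℂ → ℂ := fun s => exp (ll x c s) with hL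
  set U : Set ℂ := {s : ℂ | σ < s.re} with hU
  have hUo : IsOpen U := isOpen_lt continuous_const Complex.continuous_re
  have hUc : Convex ℝ U := convex_halfSpace_re_gt _
  have hLa : ∀ s ∈ U, AnalyticAt ℂ L s := fun s hs =>
    an_of hUo (fun s hs => (D.ll_diff hs).cexp) hs
  have hm : MeromorphicOn (fun s => f s - L s) U := fun z hz =>
    (hf z (mem_univ z)).sub (hLa z hz).meromorphicAt
  set x₀ : ℝ := max σ σ' + 1 with hx₀
  have h1 : σ < x₀ := (le_max_left _ _).trans_lt (lt_add_one _)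
  have h2 : σ' < x₀ := (le_max_right _ _).trans_lt (lt_add_one _)
  have hx : (x₀ : ℂ) ∈ U := by
    change σ < (x₀ : ℂ).re
    rwa [Complex.ofReal_re]
  have htop : meromorphicOrderAt (fun s => f s - L s) (x₀ : ℂ) = ⊤ := by
    rw [meromorphicOrderAt_eq_top_iff]
    have ho : IsOpen {z : ℂ | σ' < z.re} := isOpen_lt continuous_const Complex.continuous_re
    refine Eventually.filter_mono nhdsWithin_le_nhds ?_
    filter_upwards [ho.mem_nhds (show σ' < (x₀ : ℂ).re by rwa [Complex.ofReal_re])] with z hz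
    rw [he z hz, sub_self]
  have hs3 : meromorphicOrderAt (fun s => f s - L s) s = ⊤ := by
    by_contra hne
    exact hm.meromorphicOrderAt_ne_top_of_isPreconnected hUc.isPreconnected hs hx hne htop
  rw [meromorphicOrderAt_eq_top_iff] at hs3
  have h4 : f =ᶠ[𝓝[≠] s] L := hs3.mono fun z hz => sub_eq_zero.1 hz
  refine ⟨h4, ?_⟩
  rw [meromorphicOrderAt_congr h4]
  exact order_zero (hLa s hs) (Complex.exp_ne_zero _)

/-- **the expansions of a function meromorphic in the plane** -/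
theorem plane_ex (D : GD x c δ σ) [Countable ι] {f : ℂ → ℂ} (hf : MeromorphicOn f univ) {σ' : ℝ}
    (he : ∀ s : ℂ, σ' < s.re → f s = exp (ll x c s)) {A : ℝ} (hA : 0 ≤ A) :
    ∃ Z : Finset ℂ, (∀ β, β ∈ Z ↔ β ∈ Q A ∧ meromorphicOrderAt f β ≠ 0) ∧
      (∀ β ∈ Z, β ∈ Q A ∧ β.re ≤ σ) ∧
      Ex x c A Z (fun β => (meromorphicOrderAt f β).untop₀) := by
  set τ : ℝ := max σ σ' with hτ
  have h1 : σ ≤ τ := le_max_left _ _
  have h2 : σ' ≤ τ := le_max_right _ _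
  have D' := D.mono h1
  have hx : (((τ + 1 : ℝ)) : ℂ) ∈ Q A := by
    change |((τ + 1 : ℝ) : ℂ).im| < ((τ + 1 : ℝ) : ℂ).re + A
    rw [Complex.ofReal_im, Complex.ofReal_re, abs_zero]
    have := D'.σ0
    positivity
  obtain ⟨H, Z, hZ, hH, hZr, hL⟩ := extractP (Q_open A) (Q_convex A) (L := fun s => exp (ll x c s))
    hx (lt_add_one τ) (fun s _ => hf s (mem_univ s))
    (finiteP hf D'.σ0 (fun s hs => (D.order_right hf he (by linarith)).2) hA)
    (fun s _ hs => ⟨(D'.ll_diff hs).cexp, Complex.exp_ne_zero _⟩)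
    (fun s _ hs => he s (by linarith))
  refine ⟨Z, hZ, fun β hβ => ⟨((hZ β).1 hβ).1, ?_⟩, ?_⟩
  · by_contra h
    push Not at h
    exact ((hZ β).1 hβ).2 (D.order_right hf he h).2
  · exact D'.ex_of hA (fun β hβ => ((hZ β).1 hβ).1) hH hL

/-- an expansion for some divisor -/
def HasEx (x : ι → ℝ) (c : ι → ℂ) (σ A : ℝ) : Prop :=
  ∃ (Z : Finset ℂ) (m : ℂ → ℤ), (∀ β ∈ Z, β ∈ Q A ∧ β.re ≤ σ) ∧ Ex x c A Z m

/-- **the criterion for the plane** -/
theorem plane (D : GD x c δ σ) [Countable ι]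
    (h : ∀ A₀ : ℝ, ∃ A : ℝ, A₀ ≤ A ∧ 0 ≤ A ∧ HasEx x c σ A) :
    ∃ f : ℂ → ℂ, MeromorphicOn f univ ∧ ∀ s : ℂ, σ < s.re → f s = exp (ll x c s) := by
  refine glueP D.σ0 fun A₀ => ?_
  obtain ⟨A, h1, h2, Z, m, h3, h4⟩ := h A₀
  obtain ⟨H, h5, h6⟩ := D.cw_of h2 h3 h4
  exact ⟨A, h1, H, Z, m, fun s hs => h5 s (Or.inl hs), fun s _ hs => h6 s hs⟩

end GD

end Pool.Agent.V11291.GS
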