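import Mathlib

/-!
# The number of points of a scheme of finite type over the integers
-/

set_option autoImplicit false

open CategoryTheory AlgebraicGeometry

namespace Pool.Agent.V11291.GS

/-- the set `X(K)` -/
abbrev Pt (X : Scheme.{0}) (K : Type) [Field K] : Type := Spec (CommRingCat.of K) ⟶ X

theorem spec_card {R : CommRingCat.{0}} (f : Spec R ⟶ Spec (CommRingCat.of ℤ))
    [LocallyOfFiniteType f] : ∃ n : ℕ, ∀ (K : Type) [Field K] [Finite K],
      Finite (Pt (Spec R) K) ∧ Nat.card (Pt (Spec R) K) ≤ Nat.card K ^ n := by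
  have h1 : (Spec.preimage f).hom.FiniteType := by
    rw [← HasRingHomProperty.Spec_iff (P := @LocallyOfFiniteType), Spec.map_preimage]
    infer_instance
  have h2 : (Spec.preimage f).hom = algebraMap ℤ R := Subsingleton.elim _ _
  rw [h2, RingHom.finiteType_algebraMap] at h1
  obtain ⟨s, hs⟩ := h1.out
  refine ⟨s.card, fun K _ _ => ?_⟩
  have hinj : Function.Injective (fun (g : Pt (Spec R) K) (a : s) =>
      (Spec.homEquiv g).hom (a : R)) := by
    intro g₁ g₂ h
    apply Spec.homEquiv.injective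
    ext a
    have h3 : (Spec.homEquiv g₁).hom.toIntAlgHom = (Spec.homEquiv g₂).hom.toIntAlgHom := by
      refine AlgHom.ext_of_adjoin_eq_top hs fun a ha => ?_
      exact congrFun h ⟨a, ha⟩
    exact DFunLike.congr_fun h3 a
  refine ⟨Finite.of_injective _ hinj, ?_⟩
  refine (Nat.card_le_card_of_injective _ hinj).trans (le_of_eq ?_)
  rw [Nat.card_fun]
  simp

theorem affine_card {Y : Scheme.{0}} [IsAffine Y] (f : Y ⟶ Spec (CommRingCat.of ℤ))
    [LocallyOfFiniteType f] : ∃ n : ℕ, ∀ (K : Type) [Field K] [Finite K],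
      Finite (Pt Y K) ∧ Nat.card (Pt Y K) ≤ Nat.card K ^ n := by
  obtain ⟨n, hn⟩ := spec_card (Y.isoSpec.inv ≫ f)
  refine ⟨n, fun K _ _ => ?_⟩
  obtain ⟨h1, h2⟩ := hn K
  have hinj : Function.Injective (fun g : Pt Y K => g ≫ Y.isoSpec.hom) := fun g₁ g₂ h => by
    simpa using h
  exact ⟨Finite.of_injective _ hinj, (Nat.card_le_card_of_injective _ hinj).trans h2⟩

theorem pt_card (X : Scheme.{0}) [CompactSpace X] (f : X ⟶ Spec (CommRingCat.of ℤ))
    [LocallyOfFiniteType f] : ∃ C d : ℕ, ∀ (K : Type) [Field K] [Finite K],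
      Nat.card (Pt X K) ≤ C * Nat.card K ^ d := by
  classical
  let 𝒰 := X.affineCover.finiteSubcover
  have haff : ∀ i, IsAffine (𝒰.X i) := fun i =>
    inferInstanceAs (IsAffine (X.affineCover.X _))
  have hn : ∀ i, ∃ n : ℕ, ∀ (K : Type) [Field K] [Finite K],
      Finite (Pt (𝒰.X i) K) ∧ Nat.card (Pt (𝒰.X i) K) ≤ Nat.card K ^ n := fun i => by
    have := haff i
    exact affine_card (𝒰.f i ≫ f)
  choose n hn using hn
  refine ⟨Fintype.card 𝒰.I₀, Finset.univ.sup n, fun K _ _ => ?_⟩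
  have hfin : ∀ i, Finite (Pt (𝒰.X i) K) := fun i => (hn i K).1
  have hlift : ∀ g : Pt X K, ∃ q : (Σ i, Pt (𝒰.X i) K), q.2 ≫ 𝒰.f q.1 = g := by
    intro g
    let y : Spec (CommRingCat.of K) := (default : PrimeSpectrum K)
    let x := g y
    have hx : x ∈ Set.range (𝒰.f (𝒰.idx x)) := 𝒰.covers x
    have hr : Set.range g ⊆ Set.range (𝒰.f (𝒰.idx x)) := by
      rintro _ ⟨z, rfl⟩
      have : z = y := Subsingleton.elim (α := PrimeSpectrum K) z y
      rw [this]
      exact hx
    exact ⟨⟨𝒰.idx x, IsOpenImmersion.lift (𝒰.f (𝒰.idx x)) g hr⟩,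
      IsOpenImmersion.lift_fac _ _ _⟩
  choose q hq using hlift
  have hinj : Function.Injective q := fun g₁ g₂ h => by
    rw [← hq g₁, ← hq g₂, h]
  refine (Nat.card_le_card_of_injective q hinj).trans ?_
  rw [Nat.card_sigma]
  calc ∑ i, Nat.card (Pt (𝒰.X i) K) ≤ ∑ i : 𝒰.I₀, Nat.card K ^ (Finset.univ.sup n) := by
        refine Finset.sum_le_sum fun i _ => (hn i K).2.trans ?_
        exact Nat.pow_le_pow_right Nat.card_pos (Finset.le_sup (Finset.mem_univ i))
    _ = _ := by simp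

end Pool.Agent.V11291.GS
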