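import Pool.Agent.V11291.GS.Reg

/-!
# Expansion of the Gaussian sums ⟹ continuation
-/

set_option autoImplicit false

open MeasureTheory Filter Topology Set Complex

namespace Pool.Agent.V11291.GS

variable {ι : Type*} {x : ι → ℝ} {c : ι → ℂ} {δ σ : ℝ} {Z : Finset ℂ} {m : ℂ → ℤ}

/-- the Gaussian sums have the expansion `-∑ m(β) exp(β² T)` up to `exp(ε T)` -/
def Exps (S : ℝ → ℂ) (Z : Finset ℂ) (m : ℂ → ℤ) : Prop :=
  ∀ ε : ℝ, 0 < ε → ∃ C : ℝ, ∀ᶠ T : ℝ in atTop,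
    ‖S T + ∑ β ∈ Z, (m β : ℂ) * exp (β ^ 2 * T)‖ ≤ C * Real.exp (ε * T)

lemma gg_eq {t : ℝ} (ht : 0 ≤ t) : gg x c Z m t =
    (G x c t + ∑ β ∈ Z, (m β : ℂ) * exp (β ^ 2 * t)) - ∑ β ∈ Z, (m β : ℂ) := by
  rw [gg_pos ht]
  unfold em
  simp only [mul_sub, mul_one, Finset.sum_sub_distrib]
  ring

/-- the sum of the multiplicities -/
noncomputable def Mm (Z : Finset ℂ) (m : ℂ → ℤ) : ℝ := ∑ β ∈ Z, ‖(m β : ℂ)‖

lemma Mm_nonneg : 0 ≤ Mm Z m := Finset.sum_nonneg fun _ _ => norm_nonneg _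

lemma Mm_ge : ‖∑ β ∈ Z, (m β : ℂ)‖ ≤ Mm Z m := norm_sum_le _ _

namespace GD

lemma small (D : GD x c δ σ) (h : Exps (G x c) Z m) {ε : ℝ} (hε : 0 < ε) :
    ∃ K, Bd (fun t => gg x c Z m t / t) K ε := by
  obtain ⟨C, hC⟩ := h ε hε
  obtain ⟨T₀, hT₀⟩ := Filter.eventually_atTop.1 (hC.and (eventually_ge_atTop 1))
  set T₁ : ℝ := max T₀ 1 with hT₁
  have hT1 : 1 ≤ T₁ := le_max_right _ _
  have hK := D.Kc_nonneg (Z := Z) (m := m)
  have hM := Mm_nonneg (Z := Z) (m := m)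
  have hC0 := abs_nonneg C
  have ht0 : 0 ≤ tc σ Z := by
    have := tc_ge' σ Z
    nlinarith [sq_nonneg σ]
  refine ⟨|C| + Mm Z m + Kc x c δ σ Z m * Real.exp (tc σ Z * T₁), D.gg_meas, by positivity,
    fun t ht => ?_⟩
  have e0 : 1 ≤ Real.exp (ε * t) := Real.one_le_exp (by positivity)
  rcases le_total T₁ t with h1 | h1
  · have h2 := (hT₀ t ((le_max_left _ _).trans h1)).1
    have ht1 : 1 ≤ t := hT1.trans h1
    have h3 : ‖gg x c Z m t‖ ≤ |C| * Real.exp (ε * t) + Mm Z m := by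
      rw [gg_eq ht.le]
      refine (norm_sub_le _ _).trans (add_le_add (h2.trans ?_) Mm_ge)
      exact mul_le_mul_of_nonneg_right (le_abs_self C) (Real.exp_pos _).le
    rw [norm_div, Complex.norm_real, Real.norm_of_nonneg ht.le, div_le_iff₀ ht]
    have h4 : |C| * Real.exp (ε * t) + Mm Z m ≤ (|C| + Mm Z m) * Real.exp (ε * t) := by
      nlinarith
    have h5 : (|C| + Mm Z m) * Real.exp (ε * t) ≤
        (|C| + Mm Z m + Kc x c δ σ Z m * Real.exp (tc σ Z * T₁)) * Real.exp (ε * t) := by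
      have : 0 ≤ Kc x c δ σ Z m * Real.exp (tc σ Z * T₁) := by positivity
      exact mul_le_mul_of_nonneg_right (by linarith) (Real.exp_pos _).le
    refine (h3.trans (h4.trans h5)).trans (le_mul_of_one_le_right (by positivity) ht1)
  · have h2 := (D.gg_bd (Z := Z) (m := m)).bd t ht
    have h3 : Real.exp (tc σ Z * t) ≤ Real.exp (tc σ Z * T₁) :=
      Real.exp_le_exp.2 (mul_le_mul_of_nonneg_left h1 ht0)
    calc _ ≤ Kc x c δ σ Z m * Real.exp (tc σ Z * t) := h2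
      _ ≤ Kc x c δ σ Z m * Real.exp (tc σ Z * T₁) := by gcongr
      _ ≤ (|C| + Mm Z m + Kc x c δ σ Z m * Real.exp (tc σ Z * T₁)) * 1 := by
        rw [mul_one]
        linarith
      _ ≤ _ := by gcongr

/-- **expansion ⟹ continuation** -/
theorem down (D : GD x c δ σ) [Countable ι] (hZ : ∀ β ∈ Z, β ∈ Q 0 ∧ β.re ≤ σ)
    (h : Exps (G x c) Z m) :
    ∃ H : ℂ → ℂ, (∀ s : ℂ, s ∈ Q 0 ∨ σ < s.re → DifferentiableAt ℂ H s ∧ H s ≠ 0) ∧
      ∀ s : ℂ, σ < s.re → exp (ll x c s) = H s * ∏ β ∈ Z, (s - β) ^ m β := by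
  classical
  have hF : ∀ v : ℂ, 0 < v.re → DifferentiableAt ℂ (lap (fun t => gg x c Z m t / t)) v := by
    intro v hv
    obtain ⟨K, hK⟩ := D.small h (half_pos hv)
    exact hK.diff (by linarith)
  set E : ℂ → ℂ := fun s => exp (lap (fun t => gg x c Z m t / t) (s ^ 2)) with hE
  have hEd : ∀ s ∈ Q 0, DifferentiableAt ℂ E s := by
    intro s hs
    have h1 : DifferentiableAt ℂ (fun s : ℂ => s ^ 2) s := by fun_prop
    exact (DifferentiableAt.comp s (hF _ (Q_sq hs)) h1).cexp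
  have hre : ∀ s : ℂ, σ < s.re → s ≠ 0 := fun s hs h0 => by
    rw [h0, Complex.zero_re] at hs
    linarith [D.σ0]
  have hsub : ∀ s : ℂ, σ < s.re → ∀ β ∈ Z, s - β ≠ 0 := fun s hs β hβ h0 => by
    have := (hZ β hβ).2
    rw [sub_eq_zero.1 h0] at hs
    linarith
  have hadd : ∀ s : ℂ, 0 < s.re → ∀ β ∈ Z, s + β ≠ 0 := fun s hs β hβ h0 => by
    have h1 := Q_pos (hZ β hβ).1
    have h2 := congrArg Complex.re h0
    rw [Complex.add_re, Complex.zero_re] at h2
    linarith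
  have hfac : ∀ s : ℂ, σ < s.re → ∀ β ∈ Z, (1 - β ^ 2 / s ^ 2)⁻¹ * ((s + β) / s ^ 2) * (s - β) = 1 := by
    intro s hs β hβ
    have h1 := hre s hs
    have h2 := hsub s hs β hβ
    have h3 := hadd s (by linarith [D.σ0]) β hβ
    have h4 : 1 - β ^ 2 / s ^ 2 = (s - β) * (s + β) / s ^ 2 := by
      field_simp
      ring
    rw [h4]
    field_simp
  have hne1 : ∀ s : ℂ, σ < s.re → ∀ β ∈ Z, 1 - β ^ 2 / s ^ 2 ≠ 0 := fun s hs β hβ h0 => by
    have := hfac s hs β hβ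
    rw [h0] at this
    simp at this
  -- the identity
  set U : Set ℂ := Q 0 ∩ {s : ℂ | σ < s.re} with hU
  have hUo : IsOpen U := (Q_open 0).inter (isOpen_lt continuous_const Complex.continuous_re)
  have hUc : Convex ℝ U := (Q_convex 0).inter (convex_halfSpace_re_gt _)
  have hid : ∀ s ∈ U, E s = exp (ll x c s) * ∏ β ∈ Z, ((1 - β ^ 2 / s ^ 2)⁻¹) ^ m β := by
    refine ident hUo hUc (R := max σ (tc σ Z)) (fun s hs => hEd s hs.1) (fun s hs => ?_)
      fun r hr => ?_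
    · refine (D.ll_diff hs.2).cexp.mul (DifferentiableAt.fun_finsetProd fun β hβ => ?_)
      have h1 := hne1 s hs.2 β hβ
      have h2 : DifferentiableAt ℂ (fun s : ℂ => (1 - β ^ 2 / s ^ 2)⁻¹) s := by
        refine DifferentiableAt.inv ?_ h1
        exact (differentiableAt_const _).sub ((differentiableAt_const _).div (by fun_prop)
          (pow_ne_zero 2 (hre s hs.2)))
      exact h2.zpow (Or.inl (inv_ne_zero h1))
    · have hr1 : σ < r := (le_max_left _ _).trans_lt hr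
      have hr2 : tc σ Z < r := (le_max_right _ _).trans_lt hr
      have hr3 : 1 ≤ r := by
        have := tc_ge' σ Z
        nlinarith [sq_nonneg σ]
      refine ⟨⟨Q_real (by linarith), by simpa using hr1⟩, ?_⟩
      rw [hE]
      exact D.gg_lap hr1.le (by nlinarith)
  -- the function
  set H₁ : ℂ → ℂ := fun s => E s * ∏ β ∈ Z, ((s + β) / s ^ 2) ^ m β with hH₁
  set H₂ : ℂ → ℂ := fun s => exp (ll x c s) * ∏ β ∈ Z, (s - β) ^ (-m β) with hH₂
  have h12 : ∀ s ∈ U, H₁ s = H₂ s := by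
    intro s hs
    rw [hH₁, hH₂]
    simp only
    rw [hid s hs, mul_assoc, ← Finset.prod_mul_distrib]
    congr 1
    refine Finset.prod_congr rfl fun β hβ => ?_
    have h1 := hfac s hs.2 β hβ
    rw [← mul_zpow, zpow_neg, ← inv_zpow]
    congr 1
    exact eq_inv_of_mul_eq_one_left h1
  have hd1 : ∀ s ∈ Q 0, DifferentiableAt ℂ H₁ s ∧ H₁ s ≠ 0 := by
    intro s hs
    have h0 : s ^ 2 ≠ 0 := pow_ne_zero 2 (Q_ne hs)
    constructor
    · refine (hEd s hs).mul (DifferentiableAt.fun_finsetProd fun β hβ => ?_)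
      refine DifferentiableAt.zpow (DifferentiableAt.div (by fun_prop) (by fun_prop) h0)
        (Or.inl (div_ne_zero (hadd s (Q_pos hs) β hβ) h0))
    · exact mul_ne_zero (Complex.exp_ne_zero _) (Finset.prod_ne_zero_iff.2 fun β hβ =>
        zpow_ne_zero _ (div_ne_zero (hadd s (Q_pos hs) β hβ) h0))
  have hd2 : ∀ s : ℂ, σ < s.re → DifferentiableAt ℂ H₂ s ∧ H₂ s ≠ 0 := by
    intro s hs
    constructor
    · refine (D.ll_diff hs).cexp.mul (DifferentiableAt.fun_finsetProd fun β hβ => ?_)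
      exact DifferentiableAt.zpow (f := fun s : ℂ => s - β) (by fun_prop) (Or.inl (hsub s hs β hβ))
    · exact mul_ne_zero (Complex.exp_ne_zero _) (Finset.prod_ne_zero_iff.2 fun β hβ =>
        zpow_ne_zero _ (hsub s hs β hβ))
  set H : ℂ → ℂ := fun s => if s ∈ Q 0 then H₁ s else H₂ s with hH
  have hH2 : ∀ s : ℂ, σ < s.re → H s = H₂ s := by
    intro s hs
    rw [hH]
    simp only
    by_cases h1 : s ∈ Q 0
    · rw [if_pos h1]
      exact h12 s ⟨h1, hs⟩
    · rw [if_neg h1]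
  refine ⟨H, fun s hs => ?_, fun s hs => ?_⟩
  · rcases hs with hs | hs
    · obtain ⟨a1, a2⟩ := hd1 s hs
      have h1 : H =ᶠ[𝓝 s] H₁ := by
        filter_upwards [(Q_open 0).mem_nhds hs] with z hz
        rw [hH]
        simp only
        rw [if_pos hz]
      exact ⟨a1.congr_of_eventuallyEq h1, by rw [h1.eq_of_nhds]; exact a2⟩
    · obtain ⟨a1, a2⟩ := hd2 s hs
      have ho : IsOpen {s : ℂ | σ < s.re} := isOpen_lt continuous_const Complex.continuous_re
      have h1 : H =ᶠ[𝓝 s] H₂ := by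
        filter_upwards [ho.mem_nhds hs] with z hz
        exact hH2 z hz
      exact ⟨a1.congr_of_eventuallyEq h1, by rw [h1.eq_of_nhds]; exact a2⟩
  · rw [hH2 s hs, hH₂]
    simp only
    rw [mul_assoc, ← Finset.prod_mul_distrib]
    have h1 : ∏ β ∈ Z, ((s - β) ^ (-m β) * (s - β) ^ m β) = 1 := by
      refine Finset.prod_eq_one fun β hβ => ?_
      rw [← zpow_add₀ (hsub s hs β hβ)]
      simp
    rw [h1, mul_one]

end GD

end Pool.Agent.V11291.GS
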