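import Pool.Agent.V11291.GS.Up

/-!
# Expansion with an error term `O(exp(θ T))` ⟹ continuation to the region `Re s² > θ`
-/

set_option autoImplicit false

open MeasureTheory Filter Topology Set Complex

namespace Pool.Agent.V11291.GS

variable {ι : Type*} {x : ι → ℝ} {c : ι → ℂ} {δ σ θ : ℝ} {Z : Finset ℂ} {m : ℂ → ℤ}

/-- the region `Re s² > θ`, `Re s > 0`, for `θ ≥ 0` -/
def W (θ : ℝ) : Set ℂ := {s | ‖(Real.sqrt θ : ℂ) + s.im * I‖ < s.re}

lemma W_open (θ : ℝ) : IsOpen (W θ) := isOpen_lt (by fun_prop) (by fun_prop)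

lemma W_convex (θ : ℝ) : Convex ℝ (W θ) := by
  intro a ha b hb t u ht hu htu
  have h1 : ‖(Real.sqrt θ : ℂ) + a.im * I‖ < a.re := ha
  have h2 : ‖(Real.sqrt θ : ℂ) + b.im * I‖ < b.re := hb
  change ‖(Real.sqrt θ : ℂ) + ((t • a + u • b).im : ℂ) * I‖ < (t • a + u • b).re
  have e1 : (t • a + u • b).re = t * a.re + u * b.re := by simp
  have e2 : (Real.sqrt θ : ℂ) + ((t • a + u • b).im : ℂ) * I =
      (t : ℂ) * ((Real.sqrt θ : ℂ) + a.im * I) + (u : ℂ) * ((Real.sqrt θ : ℂ) + b.im * I) := by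
    have e3 : (t • a + u • b).im = t * a.im + u * b.im := by simp
    have e4 : (t : ℂ) + u = 1 := by exact_mod_cast htu
    rw [e3]
    push_cast
    linear_combination (-(Real.sqrt θ : ℂ)) * e4
  rw [e1, e2]
  have e5 : ‖(t : ℂ) * ((Real.sqrt θ : ℂ) + a.im * I) + (u : ℂ) * ((Real.sqrt θ : ℂ) + b.im * I)‖ ≤
      t * ‖(Real.sqrt θ : ℂ) + a.im * I‖ + u * ‖(Real.sqrt θ : ℂ) + b.im * I‖ := by
    refine (norm_add_le _ _).trans (le_of_eq ?_)
    rw [norm_mul, norm_mul, Complex.norm_real, Complex.norm_real, Real.norm_of_nonneg ht,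
      Real.norm_of_nonneg hu]
  refine e5.trans_lt ?_
  rcases ht.lt_or_eq with h | h
  · have := mul_lt_mul_of_pos_left h1 h
    have := mul_le_mul_of_nonneg_left h2.le hu
    linarith
  · have hu1 : u = 1 := by linarith
    rw [← h, hu1]
    linarith

lemma W_iff (hθ : 0 ≤ θ) {s : ℂ} : s ∈ W θ ↔ 0 < s.re ∧ θ < (s ^ 2).re := by
  have h0 : ‖(Real.sqrt θ : ℂ) + s.im * I‖ ^ 2 = θ + s.im ^ 2 := by
    rw [← Complex.normSq_eq_norm_sq, Complex.normSq_apply]
    simp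
    rw [Real.mul_self_sqrt hθ]
    ring
  rw [sq_re]
  constructor
  · intro h
    have h1 : ‖(Real.sqrt θ : ℂ) + s.im * I‖ < s.re := h
    have h2 : 0 < s.re := (norm_nonneg _).trans_lt h1
    have h3 := pow_lt_pow_left₀ h1 (norm_nonneg _) (two_ne_zero)
    rw [h0] at h3
    exact ⟨h2, by linarith⟩
  · rintro ⟨h1, h2⟩
    change ‖(Real.sqrt θ : ℂ) + s.im * I‖ < s.re
    refine lt_of_pow_lt_pow_left₀ 2 h1.le ?_
    rw [h0]
    linarith

namespace GD

/-- from one exponent -/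
lemma small' (D : GD x c δ σ) {ε : ℝ} (hε : 0 ≤ ε) (h : ∃ C : ℝ, ∀ᶠ T : ℝ in atTop,
    ‖G x c T + ∑ β ∈ Z, (m β : ℂ) * exp (β ^ 2 * T)‖ ≤ C * Real.exp (ε * T)) :
    ∃ K, Bd (fun t => gg x c Z m t / t) K ε := by
  obtain ⟨C, hC⟩ := h
  obtain ⟨T₀, hT₀⟩ := Filter.eventually_atTop.1 (hC.and (eventually_ge_atTop 1))
  set T₁ : ℝ := max T₀ 1 with hT₁
  have hT1 : 1 ≤ T₁ := le_max_right _ _
  have hK := D.Kc_nonneg (Z := Z) (m := m)
  have hM := Mm_nonneg (Z := Z) (m := m)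
  have hC0 := abs_nonneg C
  have ht0 : 0 ≤ tc σ Z := by
    have := tc_ge' σ Z
    nlinarith [sq_nonneg σ]
  refine ⟨|C| + Mm Z m + Kc x c δ σ Z m * Real.exp (tc σ Z * T₁), D.gg_meas, by positivity,
    fun t ht => ?_⟩
  have e0 : 1 ≤ Real.exp (ε * t) := Real.one_le_exp (by positivity)
  rcases le_total T₁ t with h1 | h1
  · have h2 := (hT₀ t ((le_max_left _ _).trans h1)).1
    have ht1 : 1 ≤ t := hT1.trans h1
    have h3 : ‖gg x c Z m t‖ ≤ |C| * Real.exp (ε * t) + Mm Z m := by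
      rw [gg_eq ht.le]
      refine (norm_sub_le _ _).trans (add_le_add (h2.trans ?_) Mm_ge)
      exact mul_le_mul_of_nonneg_right (le_abs_self C) (Real.exp_pos _).le
    rw [norm_div, Complex.norm_real, Real.norm_of_nonneg ht.le, div_le_iff₀ ht]
    have h4 : |C| * Real.exp (ε * t) + Mm Z m ≤ (|C| + Mm Z m) * Real.exp (ε * t) := by
      nlinarith
    have h5 : (|C| + Mm Z m) * Real.exp (ε * t) ≤
        (|C| + Mm Z m + Kc x c δ σ Z m * Real.exp (tc σ Z * T₁)) * Real.exp (ε * t) := by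
      have : 0 ≤ Kc x c δ σ Z m * Real.exp (tc σ Z * T₁) := by positivity
      exact mul_le_mul_of_nonneg_right (by linarith) (Real.exp_pos _).le
    refine (h3.trans (h4.trans h5)).trans (le_mul_of_one_le_right (by positivity) ht1)
  · have h2 := (D.gg_bd (Z := Z) (m := m)).bd t ht
    have h3 : Real.exp (tc σ Z * t) ≤ Real.exp (tc σ Z * T₁) :=
      Real.exp_le_exp.2 (mul_le_mul_of_nonneg_left h1 ht0)
    calc _ ≤ Kc x c δ σ Z m * Real.exp (tc σ Z * t) := h2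
      _ ≤ Kc x c δ σ Z m * Real.exp (tc σ Z * T₁) := by gcongr
      _ ≤ (|C| + Mm Z m + Kc x c δ σ Z m * Real.exp (tc σ Z * T₁)) * 1 := by
        rw [mul_one]
        linarith
      _ ≤ _ := by gcongr

/-- **expansion ⟹ continuation**, one exponent -/
theorem down' (D : GD x c δ σ) [Countable ι] (hθ : 0 ≤ θ) (hZ : ∀ β ∈ Z, β ∈ W θ ∧ β.re ≤ σ)
    (h : ∃ C : ℝ, ∀ᶠ T : ℝ in atTop,
      ‖G x c T + ∑ β ∈ Z, (m β : ℂ) * exp (β ^ 2 * T)‖ ≤ C * Real.exp (θ * T)) :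
    ∃ H : ℂ → ℂ, (∀ s ∈ W θ, DifferentiableAt ℂ H s ∧ H s ≠ 0) ∧
      ∀ s ∈ W θ, σ < s.re → exp (ll x c s) = H s * ∏ β ∈ Z, (s - β) ^ m β := by
  classical
  obtain ⟨K, hK⟩ := D.small' hθ h
  have hF : ∀ v : ℂ, θ < v.re → DifferentiableAt ℂ (lap (fun t => gg x c Z m t / t)) v :=
    fun v hv => hK.diff hv
  set E : ℂ → ℂ := fun s => exp (lap (fun t => gg x c Z m t / t) (s ^ 2)) with hE
  have hWpos : ∀ s ∈ W θ, 0 < s.re := fun s hs => ((W_iff hθ).1 hs).1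
  have hWsq : ∀ s ∈ W θ, θ < (s ^ 2).re := fun s hs => ((W_iff hθ).1 hs).2
  have hEd : ∀ s ∈ W θ, DifferentiableAt ℂ E s := by
    intro s hs
    have h1 : DifferentiableAt ℂ (fun s : ℂ => s ^ 2) s := by fun_prop
    exact (DifferentiableAt.comp s (hF _ (hWsq s hs)) h1).cexp
  have hre : ∀ s : ℂ, 0 < s.re → s ≠ 0 := fun s hs h0 => by
    rw [h0, Complex.zero_re] at hs
    exact lt_irrefl _ hs
  have hsub : ∀ s : ℂ, σ < s.re → ∀ β ∈ Z, s - β ≠ 0 := fun s hs β hβ h0 => by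
    have := (hZ β hβ).2
    rw [sub_eq_zero.1 h0] at hs
    linarith
  have hadd : ∀ s : ℂ, 0 < s.re → ∀ β ∈ Z, s + β ≠ 0 := fun s hs β hβ h0 => by
    have h1 := hWpos β (hZ β hβ).1
    have h2 := congrArg Complex.re h0
    rw [Complex.add_re, Complex.zero_re] at h2
    linarith
  have hfac : ∀ s : ℂ, 0 < s.re → σ < s.re → ∀ β ∈ Z,
      (1 - β ^ 2 / s ^ 2)⁻¹ * ((s + β) / s ^ 2) * (s - β) = 1 := by
    intro s hs0 hs β hβ
    have h1 := hre s hs0
    have h2 := hsub s hs β hβ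
    have h3 := hadd s hs0 β hβ
    have h4 : 1 - β ^ 2 / s ^ 2 = (s - β) * (s + β) / s ^ 2 := by
      field_simp
      ring
    rw [h4]
    field_simp
  have hne1 : ∀ s : ℂ, 0 < s.re → σ < s.re → ∀ β ∈ Z, 1 - β ^ 2 / s ^ 2 ≠ 0 :=
    fun s hs0 hs β hβ h0 => by
      have := hfac s hs0 hs β hβ
      rw [h0] at this
      simp at this
  -- the identity
  set U : Set ℂ := W θ ∩ {s : ℂ | σ < s.re} with hU
  have hUo : IsOpen U := (W_open θ).inter (isOpen_lt continuous_const Complex.continuous_re)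
  have hUc : Convex ℝ U := (W_convex θ).inter (convex_halfSpace_re_gt _)
  have hid : ∀ s ∈ U, E s = exp (ll x c s) * ∏ β ∈ Z, ((1 - β ^ 2 / s ^ 2)⁻¹) ^ m β := by
    refine ident hUo hUc (R := max (max σ (tc σ Z)) (θ + 1)) (fun s hs => hEd s hs.1)
      (fun s hs => ?_) fun r hr => ?_
    · refine (D.ll_diff hs.2).cexp.mul (DifferentiableAt.fun_finsetProd fun β hβ => ?_)
      have h1 := hne1 s (hWpos s hs.1) hs.2 β hβ
      have h2 : DifferentiableAt ℂ (fun s : ℂ => (1 - β ^ 2 / s ^ 2)⁻¹) s := by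
        refine DifferentiableAt.inv ?_ h1
        exact (differentiableAt_const _).sub ((differentiableAt_const _).div (by fun_prop)
          (pow_ne_zero 2 (hre s (hWpos s hs.1))))
      exact h2.zpow (Or.inl (inv_ne_zero h1))
    · have hr1 : σ < r := ((le_max_left _ _).trans (le_max_left _ _)).trans_lt hr
      have hr2 : tc σ Z < r := ((le_max_right _ _).trans (le_max_left _ _)).trans_lt hr
      have hr4 : θ + 1 < r := (le_max_right _ _).trans_lt hr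
      have hr3 : 1 ≤ r := by linarith
      refine ⟨⟨(W_iff hθ).2 ⟨by rw [Complex.ofReal_re]; linarith, ?_⟩, by simpa using hr1⟩, ?_⟩
      · rw [← Complex.ofReal_pow, Complex.ofReal_re]
        nlinarith
      · rw [hE]
        exact D.gg_lap hr1.le (by nlinarith)
  refine ⟨fun s => E s * ∏ β ∈ Z, ((s + β) / s ^ 2) ^ m β, fun s hs => ?_, fun s hs hσ => ?_⟩
  · have h0 : s ^ 2 ≠ 0 := pow_ne_zero 2 (hre s (hWpos s hs))
    constructor
    · refine (hEd s hs).mul (DifferentiableAt.fun_finsetProd fun β hβ => ?_)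
      refine DifferentiableAt.zpow (DifferentiableAt.div (by fun_prop) (by fun_prop) h0)
        (Or.inl (div_ne_zero (hadd s (hWpos s hs) β hβ) h0))
    · exact mul_ne_zero (Complex.exp_ne_zero _) (Finset.prod_ne_zero_iff.2 fun β hβ =>
        zpow_ne_zero _ (div_ne_zero (hadd s (hWpos s hs) β hβ) h0))
  · change exp (ll x c s) = (E s * ∏ β ∈ Z, ((s + β) / s ^ 2) ^ m β) * ∏ β ∈ Z, (s - β) ^ m β
    rw [hid s ⟨hs, hσ⟩, mul_assoc, mul_assoc, ← Finset.prod_mul_distrib,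
      ← Finset.prod_mul_distrib]
    have h1 : ∏ β ∈ Z, (((1 - β ^ 2 / s ^ 2)⁻¹) ^ m β * (((s + β) / s ^ 2) ^ m β *
        (s - β) ^ m β)) = 1 := by
      refine Finset.prod_eq_one fun β hβ => ?_
      rw [← mul_zpow, ← mul_zpow, ← mul_assoc, hfac s (hWpos s hs) hσ β hβ, one_zpow]
    rw [h1, mul_one]

end GD

end Pool.Agent.V11291.GS
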