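import Pool.Agent.V11291.GS.Down2

/-!
# Poles at the edge of absolute convergence, from Gaussian sums over the places

Euler products of degree `r` with parameters of absolute value at most `1`, the edge is `s = 1`.
-/

set_option autoImplicit false

open MeasureTheory Filter Topology Set Complex

namespace Pool.Agent.V11291.GS

variable {κ : Type*} {r : ℕ} {N : κ → ℕ} {ev : κ → Fin r → ℂ} {η : ℝ}

/-- an Euler product with `r` parameters of size at most `1` at `v` -/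
structure UP (N : κ → ℕ) (ev : κ → Fin r → ℂ) : Prop where
  two : ∀ v, 2 ≤ N v
  sum : ∀ t : ℝ, 1 < t → Summable fun v => (N v : ℝ) ^ (-t)
  le : ∀ v i, ‖ev v i‖ ≤ 1

/-- the exponents -/
noncomputable def lx (N : κ → ℕ) (v : κ) : ℝ := Real.log (N v)

/-- the coefficients -/
noncomputable def lc (N : κ → ℕ) (ev : κ → Fin r → ℂ) (η : ℝ) (v : κ) : ℂ :=
  (∑ i, ev v i) * ((N v : ℝ) ^ (-1 + η) : ℝ)

/-- the terms of order at least two -/
noncomputable def te (N : κ → ℕ) (ev : κ → Fin r → ℂ) (s : ℂ) (v : κ) : ℂ :=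
  ∑ i, (-log (1 - ev v i * (N v : ℂ) ^ (-s)) - ev v i * (N v : ℂ) ^ (-s))

/-- their sum -/
noncomputable def e2 (N : κ → ℕ) (ev : κ → Fin r → ℂ) (s : ℂ) : ℂ := ∑' v, te N ev s v

namespace UP

lemma pos (E : UP N ev) (v : κ) : (0 : ℝ) < N v := by
  have := E.two v
  exact_mod_cast (by omega : 0 < N v)

lemma two_le (E : UP N ev) (v : κ) : (2 : ℝ) ≤ N v := by exact_mod_cast E.two v

lemma norm_N (E : UP N ev) (v : κ) (s : ℂ) : ‖(N v : ℂ) ^ (-s)‖ = (N v : ℝ) ^ (-s.re) := by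
  have h2 := Complex.norm_cpow_eq_rpow_re_of_pos (E.pos v) (-s)
  rw [Complex.neg_re] at h2
  rw [← h2]
  push_cast
  rfl

lemma z_le (E : UP N ev) {b : ℝ} {s : ℂ} (hs : b ≤ s.re) (v : κ) (i : Fin r) :
    ‖ev v i * (N v : ℂ) ^ (-s)‖ ≤ (N v : ℝ) ^ (-b) := by
  rw [norm_mul, E.norm_N]
  have h1 : (N v : ℝ) ^ (-s.re) ≤ (N v : ℝ) ^ (-b) :=
    Real.rpow_le_rpow_of_exponent_le (by linarith [E.two_le v]) (by linarith)
  have h2 : (0 : ℝ) ≤ (N v : ℝ) ^ (-s.re) := Real.rpow_nonneg (E.pos v).le _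
  calc _ ≤ 1 * (N v : ℝ) ^ (-s.re) := mul_le_mul_of_nonneg_right (E.le v i) h2
    _ ≤ _ := by rw [one_mul]; exact h1

lemma b_le (E : UP N ev) {b : ℝ} (hb : 1 / 2 ≤ b) (v : κ) : (N v : ℝ) ^ (-b) ≤ 3 / 4 := by
  have h1 : (N v : ℝ) ^ (-b) ≤ (N v : ℝ) ^ (-(1 / 2) : ℝ) :=
    Real.rpow_le_rpow_of_exponent_le (by linarith [E.two_le v]) (by linarith)
  refine h1.trans ?_
  have h2 : (N v : ℝ) ^ (-(1 / 2) : ℝ) = (Real.sqrt (N v))⁻¹ := by
    rw [Real.rpow_neg (E.pos v).le, Real.sqrt_eq_rpow]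
  have h3 : (4 / 3 : ℝ) ≤ Real.sqrt (N v) := by
    apply Real.le_sqrt_of_sq_le
    linarith [E.two_le v]
  rw [h2]
  calc _ ≤ ((4 / 3 : ℝ))⁻¹ := inv_anti₀ (by norm_num) h3
    _ = 3 / 4 := by norm_num

lemma te_le (E : UP N ev) {b : ℝ} (hb : 1 / 2 ≤ b) {s : ℂ} (hs : b ≤ s.re) (v : κ) :
    ‖te N ev s v‖ ≤ (2 * r) * (N v : ℝ) ^ (-(2 * b)) := by
  unfold te
  refine (norm_sum_le _ _).trans ?_
  have h3 : ∀ i ∈ (Finset.univ : Finset (Fin r)),
      ‖-log (1 - ev v i * (N v : ℂ) ^ (-s)) - ev v i * (N v : ℂ) ^ (-s)‖ ≤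
      2 * (N v : ℝ) ^ (-(2 * b)) := by
    intro i _
    set z : ℂ := ev v i * (N v : ℂ) ^ (-s) with hz
    have hz1 : ‖z‖ ≤ (N v : ℝ) ^ (-b) := E.z_le hs v i
    have hz2 : ‖z‖ ≤ 3 / 4 := hz1.trans (E.b_le hb v)
    have h4 := Complex.norm_log_one_add_sub_self_le (z := -z) (by rw [norm_neg]; linarith)
    rw [norm_neg] at h4
    have h5 : -log (1 - z) - z = -(log (1 + -z) - -z) := by ring_nf
    rw [h5, norm_neg]
    refine h4.trans ?_
    have h6 : (1 - ‖z‖)⁻¹ ≤ 4 := by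
      rw [inv_le_comm₀ (by linarith) (by norm_num)]
      linarith
    have h7 : (N v : ℝ) ^ (-(2 * b)) = ((N v : ℝ) ^ (-b)) ^ 2 := by
      rw [← Real.rpow_natCast, ← Real.rpow_mul (E.pos v).le]
      congr 1
      push_cast
      ring
    rw [h7]
    have h8 : ‖z‖ ^ 2 ≤ ((N v : ℝ) ^ (-b)) ^ 2 := pow_le_pow_left₀ (norm_nonneg _) hz1 2
    have h9 : 0 ≤ (1 - ‖z‖)⁻¹ := by
      apply inv_nonneg.2
      linarith
    calc ‖z‖ ^ 2 * (1 - ‖z‖)⁻¹ / 2 ≤ ((N v : ℝ) ^ (-b)) ^ 2 * 4 / 2 := by gcongr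
      _ = _ := by ring
  refine (Finset.sum_le_card_nsmul _ _ _ h3).trans (le_of_eq ?_)
  rw [Finset.card_univ, Fintype.card_fin, nsmul_eq_mul]
  ring

lemma te_summable (E : UP N ev) {s : ℂ} (hs : 1 / 2 < s.re) : Summable (te N ev s) :=
  Summable.of_norm_bounded ((E.sum (2 * s.re) (by linarith)).mul_left (2 * r : ℝ))
    fun v => E.te_le hs.le le_rfl v

lemma slit (E : UP N ev) {s : ℂ} (hs : 1 / 2 ≤ s.re) (v : κ) (i : Fin r) :
    1 - ev v i * (N v : ℂ) ^ (-s) ∈ slitPlane := by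
  have h1 := (E.z_le hs v i).trans (E.b_le le_rfl v)
  left
  have h2 := (Complex.abs_re_le_norm (ev v i * (N v : ℂ) ^ (-s))).trans h1
  rw [Complex.sub_re, Complex.one_re]
  have := (abs_le.1 h2).2
  linarith

lemma e2_diff (E : UP N ev) {s : ℂ} (hs : 1 / 2 < s.re) :
    DifferentiableAt ℂ (e2 N ev) s := by
  set b : ℝ := (1 / 2 + s.re) / 2 with hb
  have hb1 : 1 / 2 < b := by rw [hb]; linarith
  have hb2 : b < s.re := by rw [hb]; linarith
  have ho : IsOpen {s : ℂ | b < s.re} := isOpen_lt continuous_const Complex.continuous_re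
  have h1 : DifferentiableOn ℂ (fun s => ∑' v, te N ev s v) {s : ℂ | b < s.re} := by
    refine differentiableOn_tsum_of_summable_norm
      ((E.sum (2 * b) (by linarith)).mul_left (2 * r : ℝ)) (fun v => ?_) ho
      fun v w hw => E.te_le hb1.le (le_of_lt hw) v
    intro w hw
    refine DifferentiableAt.differentiableWithinAt ?_
    unfold te
    refine DifferentiableAt.fun_sum fun i _ => ?_
    have h0 : (N v : ℂ) ≠ 0 := by exact_mod_cast (E.pos v).ne'
    have h2 : DifferentiableAt ℂ (fun s : ℂ => ev v i * (N v : ℂ) ^ (-s)) w :=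
      ((differentiableAt_id.neg).const_cpow (Or.inl h0)).const_mul _
    refine DifferentiableAt.sub ?_ h2
    refine (DifferentiableAt.clog ?_ ?_).neg
    · exact h2.const_sub 1
    · have hw' : b < w.re := hw
      exact E.slit (by linarith) v i
  exact h1.differentiableAt (ho.mem_nhds hb2)

lemma lc_le (E : UP N ev) (η : ℝ) (v : κ) : ‖lc N ev η v‖ ≤ r * (N v : ℝ) ^ (-1 + η) := by
  unfold lc
  have h0 : (0 : ℝ) ≤ (N v : ℝ) ^ (-1 + η) := Real.rpow_nonneg (E.pos v).le _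
  rw [norm_mul, Complex.norm_real, Real.norm_of_nonneg h0]
  refine mul_le_mul_of_nonneg_right ?_ h0
  refine (norm_sum_le _ _).trans ?_
  refine (Finset.sum_le_card_nsmul _ _ 1 fun i _ => E.le v i).trans (le_of_eq ?_)
  rw [Finset.card_univ, Fintype.card_fin, nsmul_eq_mul, mul_one]

/-- the sum over the places -/
theorem gd (E : UP N ev) (hη : 0 ≤ η) {σ : ℝ} (hσ : η < σ) :
    GD (lx N) (lc N ev η) (Real.log 2) σ where
  δ0 := Real.log_pos (by norm_num)
  σ0 := by linarith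
  ge := fun v => Real.log_le_log (by norm_num) (E.two_le v)
  sum := by
    refine Summable.of_nonneg_of_le (fun v => by positivity) (fun v => ?_)
      ((E.sum (1 - η + σ) (by linarith)).mul_left (r : ℝ))
    have hN := E.pos v
    have h1 : Real.exp (-(σ * lx N v)) = (N v : ℝ) ^ (-σ) := by
      rw [Real.rpow_def_of_pos hN]
      unfold lx
      congr 1
      ring
    rw [h1]
    calc _ ≤ (r * (N v : ℝ) ^ (-1 + η)) * (N v : ℝ) ^ (-σ) := by
          gcongr
          exact E.lc_le η v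
      _ = _ := by
          rw [mul_assoc, ← Real.rpow_add hN]
          ring_nf

lemma ll_term_eq (E : UP N ev) (η : ℝ) (s : ℂ) (v : κ) :
    lc N ev η v * exp (-((s - 1 + η) * lx N v)) = ∑ i, ev v i * (N v : ℂ) ^ (-s) := by
  have hN := E.pos v
  have h0 : (N v : ℂ) ≠ 0 := by exact_mod_cast hN.ne'
  unfold lc lx
  rw [← Finset.sum_mul, mul_assoc]
  congr 1
  rw [Complex.ofReal_cpow hN.le, Complex.ofReal_log hN.le]
  have e1 : exp (-((s - 1 + η) * log ((N v : ℝ) : ℂ))) = (N v : ℂ) ^ (-(s - 1 + η)) := by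
    rw [Complex.cpow_def_of_ne_zero h0]
    congr 1
    push_cast
    ring
  rw [e1]
  push_cast
  rw [← Complex.cpow_add _ _ h0]
  congr 1
  ring

/-- the Euler product is the exponential of the logarithm -/
theorem hasProd (E : UP N ev) (hη : 0 ≤ η) {s : ℂ} (hs : 1 < s.re) :
    HasProd (fun v => ∏ i, (1 - ev v i * (N v : ℂ) ^ (-s))⁻¹)
      (exp (ll (lx N) (lc N ev η) (s - 1 + η)) * exp (e2 N ev s)) := by
  have hre : (s - 1 + η).re = s.re - 1 + η := by simp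
  have h1 : HasSum (fun v => ∑ i, ev v i * (N v : ℂ) ^ (-s)) (ll (lx N) (lc N ev η) (s - 1 + η)) := by
    have h2 := ((E.gd hη (σ := s.re - 1 + η) (by linarith)).ll_summable
      (s := s - 1 + η) hre.ge).hasSum
    exact h2.congr_fun fun v => (E.ll_term_eq η s v).symm
  have h2 := (h1.add (E.te_summable (s := s) (by linarith)).hasSum).cexp
  rw [Complex.exp_add] at h2
  refine h2.congr_fun fun v => ?_
  simp only [Function.comp_apply]
  unfold te
  rw [← Finset.sum_add_distrib, Complex.exp_sum]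
  refine Finset.prod_congr rfl fun i _ => ?_
  have h4 : (1 : ℂ) - ev v i * (N v : ℂ) ^ (-s) ≠ 0 :=
    slitPlane_ne_zero (E.slit (by linarith) v i)
  rw [show ev v i * (N v : ℂ) ^ (-s) + (-log (1 - ev v i * (N v : ℂ) ^ (-s)) -
    ev v i * (N v : ℂ) ^ (-s)) = -log (1 - ev v i * (N v : ℂ) ^ (-s)) by ring,
    Complex.exp_neg, Complex.exp_log h4]

end UP

end Pool.Agent.V11291.GS
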