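import Pool.Agent.V11291.GS.Edge

/-!
# Poles at the edge: the theorem
-/

set_option autoImplicit false

open MeasureTheory Filter Topology Set Complex

namespace Pool.Agent.V11291.GS

variable {κ : Type*} {r : ℕ} {N : κ → ℕ} {ev : κ → Fin r → ℂ} {η : ℝ}

/-- `F` continues the product near `1` and has a pole of order `k` there -/
def Pole (N : κ → ℕ) (ev : κ → Fin r → ℂ) (k : ℤ) : Prop :=
  ∃ F : ℂ → ℂ, meromorphicOrderAt F 1 = (-k : ℤ) ∧ MeromorphicAt F 1 ∧ ∃ ρ : ℝ, 0 < ρ ∧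
    ∀ s : ℂ, 1 < s.re → ‖s - 1‖ < ρ →
      HasProd (fun v => ∏ i, (1 - ev v i * (N v : ℂ) ^ (-s))⁻¹) (F s)

/-- `G_η(T) = k exp(η² T) + O(exp(θ T))` -/
def Law (N : κ → ℕ) (ev : κ → Fin r → ℂ) (k : ℤ) (η θ : ℝ) : Prop :=
  ∃ C : ℝ, ∀ᶠ T : ℝ in atTop,
    ‖G (lx N) (lc N ev η) T - k * Real.exp (η ^ 2 * T)‖ ≤ C * Real.exp (θ * T)

lemma law_iff (k : ℤ) (θ : ℝ) : Law N ev k η θ ↔ ∃ C : ℝ, ∀ᶠ T : ℝ in atTop,
    ‖G (lx N) (lc N ev η) T + ∑ β ∈ {(η : ℂ)}, ((-k : ℤ) : ℂ) * exp (β ^ 2 * T)‖ ≤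
      C * Real.exp (θ * T) := by
  unfold Law
  have e : ∀ T : ℝ, G (lx N) (lc N ev η) T - k * Real.exp (η ^ 2 * T) =
      G (lx N) (lc N ev η) T + ∑ β ∈ {(η : ℂ)}, ((-k : ℤ) : ℂ) * exp (β ^ 2 * T) := by
    intro T
    rw [Finset.sum_singleton]
    push_cast
    ring
  simp only [e]

namespace UP

/-- **from the Gaussian sums to the pole** -/
theorem pole (E : UP N ev) [Countable κ] {k : ℤ} (hη : 0 < η) {θ : ℝ} (hθ : 0 ≤ θ)
    (hθη : θ < η ^ 2) (h : Law N ev k η θ) : Pole N ev k := by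
  have D : GD (lx N) (lc N ev η) (Real.log 2) (η + 1) := E.gd hη.le (by linarith)
  have hηW : (η : ℂ) ∈ W θ := (W_iff hθ).2 ⟨by simpa using hη, by
    rw [← Complex.ofReal_pow, Complex.ofReal_re]
    exact hθη⟩
  obtain ⟨H, hH, he⟩ := D.down' (Z := {(η : ℂ)}) (m := fun _ => -k) hθ (fun β hβ => by
    rw [Finset.mem_singleton.1 hβ]
    exact ⟨hηW, by rw [Complex.ofReal_re]; linarith⟩) ((law_iff k θ).1 h)
  -- the equality for `Re s > η`
  set U : Set ℂ := W θ ∩ {s : ℂ | η < s.re} with hU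
  have hUo : IsOpen U := (W_open θ).inter (isOpen_lt continuous_const Complex.continuous_re)
  have hUc : Convex ℝ U := (W_convex θ).inter (convex_halfSpace_re_gt _)
  have hne : ∀ s : ℂ, η < s.re → s - η ≠ 0 := fun s hs h0 => by
    rw [sub_eq_zero.1 h0, Complex.ofReal_re] at hs
    exact lt_irrefl _ hs
  have hid : ∀ s ∈ U, exp (ll (lx N) (lc N ev η) s) = H s * (s - η) ^ (-k) := by
    refine ident hUo hUc (R := max (η + 1) (θ + 1)) (fun s hs => ?_) (fun s hs => ?_) fun t ht => ?_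
    · have h1 : η < s.re := hs.2
      exact ((E.gd hη.le (σ := (η + s.re) / 2) (by linarith)).ll_diff (by linarith)).cexp
    · exact (hH s hs.1).1.mul (DifferentiableAt.zpow (by fun_prop) (Or.inl (hne s hs.2)))
    · have ht1 : η + 1 < t := (le_max_left _ _).trans_lt ht
      have ht2 : θ + 1 < t := (le_max_right _ _).trans_lt ht
      have htW : (t : ℂ) ∈ W θ := (W_iff hθ).2 ⟨by rw [Complex.ofReal_re]; linarith, by
        rw [← Complex.ofReal_pow, Complex.ofReal_re]
        nlinarith⟩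
      refine ⟨⟨htW, ?_⟩, ?_⟩
      · change η < (t : ℂ).re
        rw [Complex.ofReal_re]
        linarith
      · have := he t htW (by rw [Complex.ofReal_re]; linarith)
        rw [Finset.prod_singleton] at this
        exact this
  -- the function
  set g : ℂ → ℂ := fun s => H (s - 1 + η) * exp (e2 N ev s) with hg
  set V : Set ℂ := {s : ℂ | s - 1 + η ∈ W θ ∧ 1 / 2 < s.re} with hV
  have hVo : IsOpen V := by
    refine IsOpen.inter ?_ (isOpen_lt continuous_const Complex.continuous_re)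
    exact (W_open θ).preimage (by fun_prop : Continuous fun s : ℂ => s - 1 + η)
  have h1V : (1 : ℂ) ∈ V := ⟨by simpa using hηW, by norm_num⟩
  have hgd : ∀ s ∈ V, DifferentiableAt ℂ g s := by
    intro s hs
    have h1 : DifferentiableAt ℂ (fun s : ℂ => s - 1 + η) s := by fun_prop
    exact (DifferentiableAt.comp s (hH _ hs.1).1 h1).mul (E.e2_diff hs.2).cexp
  have hga : AnalyticAt ℂ g 1 :=
    (DifferentiableOn.analyticOnNhd (fun s hs => (hgd s hs).differentiableWithinAt) hVo) 1 h1V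
  have hg0 : g 1 ≠ 0 := mul_ne_zero (hH _ h1V.1).2 (Complex.exp_ne_zero _)
  have hM : MeromorphicAt (fun s => (s - 1) ^ (-k) * g s) 1 :=
    ((MeromorphicAt.id 1).sub (MeromorphicAt.const 1 1)).zpow (-k) |>.mul hga.meromorphicAt
  refine ⟨fun s => (s - 1) ^ (-k) * g s, ?_, hM, ?_⟩
  · rw [meromorphicOrderAt_eq_int_iff hM]
    exact ⟨g, hga, hg0, Filter.Eventually.of_forall fun s => by rw [smul_eq_mul]⟩
  · obtain ⟨ρ, hρ, hb⟩ := Metric.isOpen_iff.1 hVo 1 h1V
    refine ⟨ρ, hρ, fun s hs hsρ => ?_⟩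
    have hsV : s ∈ V := hb (by rw [Metric.mem_ball, dist_eq_norm]; exact hsρ)
    have h1 := E.hasProd hη.le hs
    have h2 := hid (s - 1 + η) ⟨hsV.1, by
      change η < (s - 1 + η : ℂ).re
      simp
      exact hs⟩
    rw [h2] at h1
    have h3 : (s - 1) ^ (-k) * g s =
        H (s - 1 + η) * (s - 1 + η - η) ^ (-k) * exp (e2 N ev s) := by
      simp only [hg]
      rw [show s - 1 + (η : ℂ) - η = s - 1 by ring]
      ring
    change HasProd _ ((s - 1) ^ (-k) * g s)
    rw [h3]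
    exact h1

/-- **from the pole to the Gaussian sums** -/
theorem law (E : UP N ev) [Countable κ] {k : ℤ} (h : Pole N ev k) :
    ∃ η₀ : ℝ, 0 < η₀ ∧ η₀ ≤ 1 / 2 ∧ ∀ η : ℝ, 0 < η → η < η₀ → ∀ ε : ℝ, 0 < ε →
      Law N ev k η ε := by
  obtain ⟨F, hF, hM, ρ, hρ, hP⟩ := h
  rw [meromorphicOrderAt_eq_int_iff hM] at hF
  obtain ⟨g, hga, hg0, hFg⟩ := hF
  -- a ball on which everything is nice
  have h1 : ∀ᶠ s in 𝓝 (1 : ℂ), AnalyticAt ℂ g s ∧ g s ≠ 0 :=
    hga.eventually_analyticAt.and (hga.continuousAt.eventually_ne hg0)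
  obtain ⟨ρ₁, hρ₁, hb1⟩ := Metric.eventually_nhds_iff.1 h1
  rw [eventually_nhdsWithin_iff] at hFg
  obtain ⟨ρ₂, hρ₂, hb2⟩ := Metric.eventually_nhds_iff.1 hFg
  set ρ₀ : ℝ := min ρ (min ρ₁ ρ₂) with hρ₀
  have hρ00 : 0 < ρ₀ := lt_min hρ (lt_min hρ₁ hρ₂)
  have hle1 : ρ₀ ≤ ρ := min_le_left _ _
  have hle2 : ρ₀ ≤ ρ₁ := (min_le_right _ _).trans (min_le_left _ _)
  have hle3 : ρ₀ ≤ ρ₂ := (min_le_right _ _).trans (min_le_right _ _)
  refine ⟨min (1 / 2) (ρ₀ / 2), by positivity, min_le_left _ _, fun η hη hη1 ε hε => ?_⟩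
  have hη2 : η < 1 / 2 := hη1.trans_le (min_le_left _ _)
  have hη3 : 2 * η < ρ₀ := by
    have := hη1.trans_le (min_le_right _ _)
    linarith
  have D : GD (lx N) (lc N ev η) (Real.log 2) (η + 1) := E.gd hη.le (by linarith)
  -- the identity on the overlap
  have hover : ∀ s : ℂ, 1 < s.re → ‖s - 1‖ < ρ₀ →
      exp (ll (lx N) (lc N ev η) (s - 1 + η)) * (s - 1) ^ k = g s * exp (-e2 N ev s) := by
    intro s hs hsρ
    have hs1 : s ≠ 1 := fun h0 => by
      rw [h0, Complex.one_re] at hs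
      exact lt_irrefl _ hs
    have h2 := (hP s hs (hsρ.trans_le hle1)).unique (E.hasProd hη.le hs)
    have h3 := hb2 (y := s) (by rw [dist_eq_norm]; exact hsρ.trans_le hle3) hs1
    rw [h3, smul_eq_mul] at h2
    have h4 : exp (ll (lx N) (lc N ev η) (s - 1 + η)) =
        (s - 1) ^ (-k) * g s * exp (-e2 N ev s) := by
      rw [h2, mul_assoc, ← Complex.exp_add, add_neg_cancel, Complex.exp_zero, mul_one]
    rw [h4, zpow_neg]
    have h5 : (s - 1) ^ k ≠ 0 := zpow_ne_zero _ (sub_ne_zero.2 hs1)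
    field_simp
  -- the function `H`
  classical
  set A : ℂ → ℂ := fun w => exp (ll (lx N) (lc N ev η) w) * (w - η) ^ k with hA
  set B : ℂ → ℂ := fun w => g (w + 1 - η) * exp (-e2 N ev (w + 1 - η)) with hB
  set H : ℂ → ℂ := fun w => if η < w.re then A w else B w with hH
  have hAB : ∀ w : ℂ, η < w.re → ‖w - η‖ < ρ₀ → A w = B w := by
    intro w hw hwρ
    have h2 := hover (w + 1 - η) (by simp; linarith) (by
      rw [show w + 1 - (η : ℂ) - 1 = w - η by ring]
      exact hwρ)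
    rw [show w + 1 - (η : ℂ) - 1 + η = w by ring, show w + 1 - (η : ℂ) - 1 = w - η by ring] at h2
    exact h2
  have hHd : ∀ w ∈ Q 0, DifferentiableAt ℂ H w ∧ H w ≠ 0 := by
    intro w hw
    have hw' : |w.im| < w.re := by
      have : |w.im| < w.re + 0 := hw
      linarith
    rcases lt_or_ge η w.re with h2 | h2
    · have hne : w - η ≠ 0 := fun h0 => by
        rw [sub_eq_zero.1 h0, Complex.ofReal_re] at h2
        exact lt_irrefl _ h2
      constructor
      · have h3 : DifferentiableAt ℂ A w := by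
          refine DifferentiableAt.mul ?_ (DifferentiableAt.zpow (by fun_prop) (Or.inl hne))
          exact ((E.gd hη.le (σ := (η + w.re) / 2) (by linarith)).ll_diff (by linarith)).cexp
        refine h3.congr_of_eventuallyEq ?_
        filter_upwards [(isOpen_lt continuous_const Complex.continuous_re).mem_nhds
          (show w ∈ {z : ℂ | η < z.re} from h2)] with z hz
        exact if_pos hz
      · rw [hH]
        simp only [if_pos h2]
        exact mul_ne_zero (Complex.exp_ne_zero _) (zpow_ne_zero _ hne)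
    · -- near the point `η`
      have hnorm : ‖w - η‖ < ρ₀ := by
        refine (Complex.norm_le_abs_re_add_abs_im _).trans_lt ?_
        have h3 : (w - η : ℂ).re = w.re - η := by simp
        have h4 : (w - η : ℂ).im = w.im := by simp
        have h5 : 0 < w.re := (abs_nonneg _).trans_lt hw'
        rw [h3, h4, abs_of_nonpos (by linarith)]
        linarith
      have hmem : w ∈ Metric.ball (η : ℂ) ρ₀ := by
        rw [Metric.mem_ball, dist_eq_norm]
        exact hnorm
      have hball : ∀ z : ℂ, ‖z - η‖ < ρ₀ → H z = B z := by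
        intro z hz
        by_cases h6 : η < z.re
        · rw [hH]
          simp only [if_pos h6]
          exact hAB z h6 hz
        · rw [hH]
          simp only [if_neg h6]
      have hg1 : AnalyticAt ℂ g (w + 1 - η) ∧ g (w + 1 - η) ≠ 0 := hb1 (by
        rw [dist_eq_norm, show w + 1 - (η : ℂ) - 1 = w - η by ring]
        exact hnorm.trans_le hle2)
      have hre : 1 / 2 < (w + 1 - η : ℂ).re := by
        have h5 : 0 < w.re := (abs_nonneg _).trans_lt hw'
        simp
        linarith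
      have hlin : DifferentiableAt ℂ (fun z : ℂ => z + 1 - η) w := by fun_prop
      constructor
      · have h3 : DifferentiableAt ℂ B w :=
          (DifferentiableAt.comp w hg1.1.differentiableAt hlin).mul
            ((DifferentiableAt.comp w (E.e2_diff hre) hlin).neg).cexp
        refine h3.congr_of_eventuallyEq ?_
        filter_upwards [Metric.isOpen_ball.mem_nhds hmem] with z hz
        rw [Metric.mem_ball, dist_eq_norm] at hz
        exact hball z hz
      · rw [hball w hnorm]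
        exact mul_ne_zero hg1.2 (Complex.exp_ne_zero _)
  have hE := D.up (Z := {(η : ℂ)}) (m := fun _ => -k) (fun β hβ => by
    rw [Finset.mem_singleton.1 hβ]
    change |(η : ℂ).im| < (η : ℂ).re + 0
    simp
    exact hη) hHd (σ' := η) (by linarith) fun s _ hs => by
      rw [Finset.prod_singleton, hH]
      simp only [if_pos hs]
      have hne : s - η ≠ 0 := fun h0 => by
        rw [sub_eq_zero.1 h0, Complex.ofReal_re] at hs
        exact lt_irrefl _ hs
      rw [hA]
      simp only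
      rw [mul_assoc, ← zpow_add₀ hne, add_neg_cancel, zpow_zero, mul_one]
  exact (law_iff k ε).2 (hE ε hε)

/-- **the criterion** -/
theorem tfae (E : UP N ev) [Countable κ] (k : ℤ) : List.TFAE [
    Pole N ev k,
    ∃ η₀ : ℝ, 0 < η₀ ∧ ∀ η : ℝ, 0 < η → η < η₀ → ∀ ε : ℝ, 0 < ε → Law N ev k η ε,
    ∃ η θ : ℝ, 0 < η ∧ 0 ≤ θ ∧ θ < η ^ 2 ∧ Law N ev k η θ] := by
  tfae_have 1 → 2 := fun h => by
    obtain ⟨η₀, h1, _, h2⟩ := E.law h
    exact ⟨η₀, h1, h2⟩
  tfae_have 2 → 3 := fun ⟨η₀, h1, h2⟩ => by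
    refine ⟨η₀ / 2, (η₀ / 2) ^ 2 / 2, by positivity, by positivity, ?_,
      h2 _ (by positivity) (by linarith) _ (by positivity)⟩
    have : 0 < (η₀ / 2) ^ 2 := by positivity
    linarith
  tfae_have 3 → 1 := fun ⟨η, θ, h1, h2, h3, h4⟩ => E.pole h1 h2 h3 h4
  tfae_finish

end UP

end Pool.Agent.V11291.GS
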