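import Pool.Agent.V11291.GS.Plane

/-!
# Euler products with polynomially bounded parameters
-/

set_option autoImplicit false

open MeasureTheory Filter Topology Set Complex

namespace Pool.Agent.V11291.GS

variable {κ : Type*} {r : ℕ} {N : κ → ℕ} {ev : κ → Fin r → ℂ} {c σ : ℝ}

/-- an Euler product with `r` parameters of size at most `(N v)^c` at `v` -/
structure EP (N : κ → ℕ) (ev : κ → Fin r → ℂ) (c σ : ℝ) : Prop where
  two : ∀ v, 2 ≤ N v
  sum : ∀ t : ℝ, 1 < t → Summable fun v => (N v : ℝ) ^ (-t)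
  c0 : 0 ≤ c
  le : ∀ v i, ‖ev v i‖ ≤ (N v : ℝ) ^ c
  lt : 1 + c < σ

/-- the exponents -/
noncomputable def xx (N : κ → ℕ) (q : κ × ℕ) : ℝ := ((q.2 : ℝ) + 1) * Real.log (N q.1)

/-- the coefficients of the logarithm -/
noncomputable def cc (ev : κ → Fin r → ℂ) (q : κ × ℕ) : ℂ :=
  (∑ i, ev q.1 i ^ (q.2 + 1)) / ((q.2 : ℂ) + 1)

namespace EP

lemma pos (E : EP N ev c σ) (v : κ) : (0 : ℝ) < N v := by
  have := E.two v
  exact_mod_cast (by omega : 0 < N v)

lemma one_le (E : EP N ev c σ) (v : κ) : (2 : ℝ) ≤ N v := by exact_mod_cast E.two v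

lemma exp_x (E : EP N ev c σ) (t : ℝ) (q : κ × ℕ) :
    Real.exp (-(t * xx N q)) = ((N q.1 : ℝ) ^ (-t)) ^ (q.2 + 1) := by
  rw [Real.rpow_def_of_pos (E.pos q.1), ← Real.exp_nat_mul]
  congr 1
  unfold xx
  push_cast
  ring

lemma u_le (E : EP N ev c σ) (v : κ) : (N v : ℝ) ^ (-(σ - c)) ≤ 1 / 2 := by
  have h1 : (N v : ℝ) ^ (-(σ - c)) ≤ (N v : ℝ) ^ (-(1 : ℝ)) :=
    Real.rpow_le_rpow_of_exponent_le (by linarith [E.one_le v]) (by linarith [E.lt])
  refine h1.trans ?_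
  rw [Real.rpow_neg_one, one_div]
  exact inv_anti₀ (by norm_num) (E.one_le v)

lemma c_le (E : EP N ev c σ) (q : κ × ℕ) : ‖cc ev q‖ * Real.exp (-(σ * xx N q)) ≤
    r * ((N q.1 : ℝ) ^ (-(σ - c))) ^ (q.2 + 1) := by
  have hN := E.pos q.1
  have h1 : ‖cc ev q‖ ≤ r * ((N q.1 : ℝ) ^ c) ^ (q.2 + 1) := by
    unfold cc
    have h2 : ‖∑ i, ev q.1 i ^ (q.2 + 1)‖ ≤ r * ((N q.1 : ℝ) ^ c) ^ (q.2 + 1) := by
      refine (norm_sum_le _ _).trans ?_
      have h3 : ∀ i ∈ (Finset.univ : Finset (Fin r)), ‖ev q.1 i ^ (q.2 + 1)‖ ≤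
          ((N q.1 : ℝ) ^ c) ^ (q.2 + 1) := fun i _ => by
        rw [norm_pow]
        exact pow_le_pow_left₀ (norm_nonneg _) (E.le q.1 i) _
      refine (Finset.sum_le_card_nsmul _ _ _ h3).trans (le_of_eq ?_)
      rw [Finset.card_univ, Fintype.card_fin, nsmul_eq_mul]
    have h3 : ‖((q.2 : ℂ) + 1)‖ = (q.2 : ℝ) + 1 := by
      rw [show ((q.2 : ℂ) + 1) = (((q.2 : ℝ) + 1 : ℝ) : ℂ) by push_cast; ring, Complex.norm_real,
        Real.norm_of_nonneg (by positivity)]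
    rw [norm_div, h3]
    refine (div_le_self (norm_nonneg _) ?_).trans h2
    have : (0 : ℝ) ≤ q.2 := q.2.cast_nonneg
    linarith
  rw [E.exp_x]
  calc _ ≤ (r * ((N q.1 : ℝ) ^ c) ^ (q.2 + 1)) * ((N q.1 : ℝ) ^ (-σ)) ^ (q.2 + 1) := by gcongr
    _ = _ := by
      rw [mul_assoc, ← mul_pow, ← Real.rpow_add hN]
      congr 3
      ring

lemma summable (E : EP N ev c σ) :
    Summable fun q : κ × ℕ => ((N q.1 : ℝ) ^ (-(σ - c))) ^ (q.2 + 1) := by
  have hu0 : ∀ v, 0 ≤ (N v : ℝ) ^ (-(σ - c)) := fun v => by positivity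
  have hgeo : ∀ v, HasSum (fun k : ℕ => ((N v : ℝ) ^ (-(σ - c))) ^ (k + 1))
      ((N v : ℝ) ^ (-(σ - c)) * (1 - (N v : ℝ) ^ (-(σ - c)))⁻¹) := by
    intro v
    have h1 : (N v : ℝ) ^ (-(σ - c)) < 1 := by linarith [E.u_le v]
    have h2 := (hasSum_geometric_of_lt_one (hu0 v) h1).mul_left ((N v : ℝ) ^ (-(σ - c)))
    refine h2.congr_fun fun k => ?_
    rw [pow_succ, mul_comm]
  refine (summable_prod_of_nonneg fun q => by positivity).2 ⟨fun v => (hgeo v).summable, ?_⟩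
  have h3 : Summable fun v => 2 * (N v : ℝ) ^ (-(σ - c)) :=
    (E.sum (σ - c) (by linarith [E.lt])).mul_left 2
  refine Summable.of_nonneg_of_le (fun v => tsum_nonneg fun k => by positivity) (fun v => ?_) h3
  rw [(hgeo v).tsum_eq, mul_comm]
  refine mul_le_mul_of_nonneg_right ?_ (hu0 v)
  have h1 := E.u_le v
  rw [inv_le_comm₀ (by linarith) (by norm_num)]
  linarith

/-- the logarithm -/
theorem gd (E : EP N ev c σ) : GD (xx N) (cc ev) (Real.log 2) σ where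
  δ0 := Real.log_pos (by norm_num)
  σ0 := by linarith [E.lt, E.c0]
  ge := fun q => by
    unfold xx
    have h1 : Real.log 2 ≤ Real.log (N q.1) := Real.log_le_log (by norm_num) (E.one_le q.1)
    have h2 : 0 ≤ Real.log 2 := Real.log_nonneg (by norm_num)
    have h3 : (0 : ℝ) ≤ q.2 := q.2.cast_nonneg
    nlinarith
  sum := Summable.of_nonneg_of_le (fun q => by positivity) E.c_le (E.summable.mul_left _)

lemma z_lt (E : EP N ev c σ) {s : ℂ} (hs : σ ≤ s.re) (v : κ) (i : Fin r) :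
    ‖ev v i * (N v : ℂ) ^ (-s)‖ < 1 := by
  have hN := E.pos v
  have h1 : ‖(N v : ℂ) ^ (-s)‖ = (N v : ℝ) ^ (-s.re) := by
    have h2 := Complex.norm_cpow_eq_rpow_re_of_pos hN (-s)
    rw [Complex.neg_re] at h2
    rw [← h2]
    push_cast
    rfl
  rw [norm_mul, h1]
  calc _ ≤ (N v : ℝ) ^ c * (N v : ℝ) ^ (-s.re) := by
        gcongr
        exact E.le v i
    _ = (N v : ℝ) ^ (c - s.re) := by
        rw [← Real.rpow_add hN]
        ring_nf
    _ ≤ (N v : ℝ) ^ (-(σ - c)) :=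
        Real.rpow_le_rpow_of_exponent_le (by linarith [E.one_le v]) (by linarith)
    _ ≤ 1 / 2 := E.u_le v
    _ < 1 := by norm_num

/-- the Euler product is the exponential of the logarithm -/
theorem hasProd (E : EP N ev c σ) {s : ℂ} (hs : σ ≤ s.re) :
    HasProd (fun v => ∏ i, (1 - ev v i * (N v : ℂ) ^ (-s))⁻¹) (exp (ll (xx N) (cc ev) s)) := by
  have h1 := (E.gd.ll_summable hs).hasSum
  have hlog : ∀ v, HasSum (fun k : ℕ => cc ev (v, k) * exp (-(s * xx N (v, k))))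
      (∑ i, -log (1 - ev v i * (N v : ℂ) ^ (-s))) := by
    intro v
    have hN : (N v : ℂ) ≠ 0 := by exact_mod_cast (E.pos v).ne'
    have h2 := hasSum_sum (s := (Finset.univ : Finset (Fin r))) fun i _ =>
      hasSum_taylorSeries_neg_log' (E.z_lt hs v i)
    refine h2.congr_fun fun k => ?_
    unfold cc xx
    simp only
    rw [Finset.sum_div, Finset.sum_mul]
    refine Finset.sum_congr rfl fun i _ => ?_
    have h3 : exp (-(s * ((((k : ℝ) + 1) * Real.log (N v) : ℝ) : ℂ))) =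
        ((N v : ℂ) ^ (-s)) ^ (k + 1) := by
      rw [Complex.cpow_def_of_ne_zero hN, ← Complex.exp_nat_mul]
      congr 1
      push_cast
      ring
    rw [h3, mul_pow]
    ring
  have h2 := h1.prod_fiberwise hlog
  have h3 := h2.cexp
  refine h3.congr_fun fun v => ?_
  simp only [Function.comp_apply]
  rw [Complex.exp_sum]
  refine Finset.prod_congr rfl fun i _ => ?_
  have h4 : (1 : ℂ) - ev v i * (N v : ℂ) ^ (-s) ≠ 0 := by
    intro h
    have h5 := E.z_lt hs v i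
    rw [← sub_eq_zero.1 h, norm_one] at h5
    exact lt_irrefl _ h5
  rw [Complex.exp_neg, Complex.exp_log h4]

end EP

end Pool.Agent.V11291.GS
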