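import Pool.Agent.V11291.GS.Lap
import Pool.Agent.Helper5.Pf.GlasserReal

/-!
# Gaussian sums of Dirichlet series
-/

set_option autoImplicit false

open MeasureTheory Filter Topology Set Complex

namespace Pool.Agent.V11291.GS

/-- `x` times the heat kernel -/
noncomputable def kr (x T : ℝ) : ℝ := x * (Real.sqrt (4 * Real.pi * T))⁻¹ * Real.exp (-(x ^ 2 / (4 * T)))

lemma kr_zero {x T : ℝ} (hT : T ≤ 0) : kr x T = 0 := by
  unfold kr
  rw [Real.sqrt_eq_zero_of_nonpos (by nlinarith [Real.pi_pos])]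
  simp

lemma kr_nonneg {x T : ℝ} (hx : 0 ≤ x) : 0 ≤ kr x T := by
  unfold kr
  positivity

/-- the constant in the bound -/
noncomputable def kB (δ : ℝ) : ℝ := 3072 / δ ^ 5

lemma kB_nonneg {δ : ℝ} (hδ : 0 < δ) : 0 ≤ kB δ := by
  unfold kB
  positivity

lemma exp_cube {u : ℝ} (hu : 0 < u) : Real.exp (-u) ≤ 6 / u ^ 3 := by
  have h1 : u ^ 3 / 6 ≤ Real.exp u := by
    have := Real.pow_div_factorial_le_exp u hu.le 3
    simpa [Nat.factorial] using this
  rw [Real.exp_neg, ← one_div, div_le_div_iff₀ (Real.exp_pos _) (by positivity)]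
  linarith

lemma kr_le {δ σ x T : ℝ} (hδ : 0 < δ) (hx : δ ≤ x) (hT : 0 < T) :
    kr x T ≤ kB δ * T ^ 2 * Real.exp ((2 * σ ^ 2 + 1) * T) * Real.exp (-(σ * x)) := by
  have hx0 : 0 < x := hδ.trans_le hx
  unfold kr kB
  have e0 : -(x ^ 2 / (4 * T)) = -(x ^ 2 / (8 * T)) + -(x ^ 2 / (8 * T)) := by
    field_simp
    ring
  have e1 : Real.exp (-(x ^ 2 / (8 * T))) ≤ 3072 * T ^ 3 / x ^ 6 := by
    refine (exp_cube (by positivity)).trans (le_of_eq ?_)
    field_simp
    ring
  have e2 : -(x ^ 2 / (8 * T)) ≤ 2 * σ ^ 2 * T + -(σ * x) := by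
    have h1 : σ * x ≤ 2 * σ ^ 2 * T + x ^ 2 / (8 * T) := by
      have h2 : 2 * σ ^ 2 * T + x ^ 2 / (8 * T) - σ * x = (x - 4 * σ * T) ^ 2 / (8 * T) := by
        field_simp
        ring
      have h3 : 0 ≤ (x - 4 * σ * T) ^ 2 / (8 * T) := by positivity
      linarith
    linarith
  have e3 : (Real.sqrt (4 * Real.pi * T))⁻¹ * T ≤ Real.exp T := by
    have hs : 0 < Real.sqrt (4 * Real.pi * T) := Real.sqrt_pos.2 (by positivity)
    rw [inv_mul_le_iff₀ hs]
    have h1 : Real.sqrt T ≤ Real.sqrt (4 * Real.pi * T) := by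
      apply Real.sqrt_le_sqrt
      have := Real.pi_gt_three
      nlinarith
    have h2 : Real.sqrt T ≤ Real.exp T := by
      have h3 := Real.add_one_le_exp T
      have h4 : Real.sqrt T ≤ 1 + T := by
        rw [Real.sqrt_le_left (by linarith)]
        nlinarith
      linarith
    calc T = Real.sqrt T * Real.sqrt T := (Real.mul_self_sqrt hT.le).symm
      _ ≤ _ := mul_le_mul h1 h2 (Real.sqrt_nonneg _) hs.le
  have e4 : x ^ 5 ≥ δ ^ 5 := pow_le_pow_left₀ hδ.le hx 5
  rw [e0, Real.exp_add]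
  calc x * (Real.sqrt (4 * Real.pi * T))⁻¹ * (Real.exp (-(x ^ 2 / (8 * T))) *
        Real.exp (-(x ^ 2 / (8 * T)))) ≤ x * (Real.sqrt (4 * Real.pi * T))⁻¹ *
        ((3072 * T ^ 3 / x ^ 6) * Real.exp (2 * σ ^ 2 * T + -(σ * x))) := by
        gcongr
    _ = (3072 / x ^ 5) * T ^ 2 * ((Real.sqrt (4 * Real.pi * T))⁻¹ * T) *
        Real.exp (2 * σ ^ 2 * T + -(σ * x)) := by
        field_simp
    _ ≤ (3072 / δ ^ 5) * T ^ 2 * Real.exp T * Real.exp (2 * σ ^ 2 * T + -(σ * x)) := by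
        gcongr
    _ = (3072 / δ ^ 5) * T ^ 2 * (Real.exp T * Real.exp (2 * σ ^ 2 * T + -(σ * x))) := by ring
    _ = (3072 / δ ^ 5) * T ^ 2 * (Real.exp ((2 * σ ^ 2 + 1) * T) * Real.exp (-(σ * x))) := by
        rw [← Real.exp_add, ← Real.exp_add]
        congr 2
        ring
    _ = _ := by ring

/-- the Laplace transform of the kernel -/
theorem kr_lap {x r : ℝ} (hx : 0 < x) (hr : 0 < r) :
    IntegrableOn (fun t : ℝ => Real.exp (-(r ^ 2 * t)) * (kr x t / t)) (Ioi 0) ∧
    ∫ t in Ioi (0 : ℝ), Real.exp (-(r ^ 2 * t)) * (kr x t / t) = Real.exp (-(r * x)) := by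
  obtain ⟨h1, h2⟩ := Pool.Agent.Helper5.PG.glasser_real x (r ^ 2) hx (by positivity)
  have hpi : 0 < Real.sqrt Real.pi := Real.sqrt_pos.2 Real.pi_pos
  have he : ∀ t ∈ Ioi (0 : ℝ), Real.exp (-(r ^ 2 * t)) * (kr x t / t) =
      (x / (2 * Real.sqrt Real.pi)) * (t ^ (-(3 / 2) : ℝ) *
        Real.exp (-(x ^ 2 / (4 * t)) - r ^ 2 * t)) := by
    intro t ht
    have ht0 : (0 : ℝ) < t := ht
    unfold kr
    have e1 : Real.sqrt (4 * Real.pi * t) = 2 * Real.sqrt Real.pi * Real.sqrt t := by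
      rw [Real.sqrt_mul (by positivity), Real.sqrt_mul (by norm_num)]
      congr 2
      rw [show (4 : ℝ) = 2 ^ 2 by norm_num, Real.sqrt_sq (by norm_num)]
    have e2 : t ^ (-(3 / 2) : ℝ) = (Real.sqrt t)⁻¹ / t := by
      have e3 : t ^ (-(3 / 2) : ℝ) = t ^ (-(1 / 2) : ℝ) * t ^ (-1 : ℝ) := by
        rw [← Real.rpow_add ht0]
        norm_num
      rw [e3, Real.rpow_neg_one, Real.sqrt_eq_rpow, Real.rpow_neg ht0.le]
      rfl
    have e3 : Real.exp (-(x ^ 2 / (4 * t)) - r ^ 2 * t) = Real.exp (-(x ^ 2 / (4 * t))) *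
        Real.exp (-(r ^ 2 * t)) := by
      rw [← Real.exp_add]
      congr 1
    have hst : 0 < Real.sqrt t := Real.sqrt_pos.2 ht0
    rw [e1, e2, e3]
    field_simp
  constructor
  · exact IntegrableOn.congr_fun (Integrable.const_mul h1 (x / (2 * Real.sqrt Real.pi)))
      (fun t ht => (he t ht).symm) measurableSet_Ioi
  · rw [setIntegral_congr_fun measurableSet_Ioi he, integral_const_mul, h2, Real.sqrt_sq hr.le]
    field_simp

lemma kr_cont (x : ℝ) : ContinuousOn (kr x) (Ioi 0) := by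
  unfold kr
  intro T hT
  have hT0 : (0 : ℝ) < T := hT
  have h1 : Real.sqrt (4 * Real.pi * T) ≠ 0 := (Real.sqrt_pos.2 (by positivity)).ne'
  have h2 : (4 : ℝ) * T ≠ 0 := by positivity
  refine ContinuousAt.continuousWithinAt ?_
  refine ContinuousAt.mul (continuousAt_const.mul (ContinuousAt.inv₀ (by fun_prop) h1)) ?_
  exact (ContinuousAt.neg (continuousAt_const.div (by fun_prop) h2)).rexp

variable {ι : Type*}

/-- a Dirichlet series with exponents `x i ≥ δ > 0`, absolutely convergent at `σ > 0` -/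
structure GD (x : ι → ℝ) (c : ι → ℂ) (δ σ : ℝ) : Prop where
  δ0 : 0 < δ
  σ0 : 0 < σ
  ge : ∀ i, δ ≤ x i
  sum : Summable fun i => ‖c i‖ * Real.exp (-(σ * x i))

/-- the Gaussian sum -/
noncomputable def G (x : ι → ℝ) (c : ι → ℂ) (T : ℝ) : ℂ := ∑' i, c i * (kr (x i) T : ℂ)

/-- the Dirichlet series -/
noncomputable def ll (x : ι → ℝ) (c : ι → ℂ) (s : ℂ) : ℂ := ∑' i, c i * exp (-(s * x i))

/-- the sum of the absolute values -/
noncomputable def S₀ (x : ι → ℝ) (c : ι → ℂ) (σ : ℝ) : ℝ := ∑' i, ‖c i‖ * Real.exp (-(σ * x i))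

variable {x : ι → ℝ} {c : ι → ℂ} {δ σ : ℝ}

lemma S₀_nonneg : 0 ≤ S₀ x c σ := tsum_nonneg fun i => by positivity

namespace GD

lemma pos (D : GD x c δ σ) (i : ι) : 0 < x i := D.δ0.trans_le (D.ge i)

lemma ll_term (D : GD x c δ σ) {s : ℂ} (hs : σ ≤ s.re) (i : ι) :
    ‖c i * exp (-(s * x i))‖ ≤ ‖c i‖ * Real.exp (-(σ * x i)) := by
  rw [norm_mul, exp_norm]
  refine mul_le_mul_of_nonneg_left (Real.exp_le_exp.2 ?_) (norm_nonneg _)
  have := mul_le_mul_of_nonneg_right hs (D.pos i).le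
  linarith

lemma ll_summable (D : GD x c δ σ) {s : ℂ} (hs : σ ≤ s.re) :
    Summable fun i => c i * exp (-(s * x i)) :=
  Summable.of_norm_bounded D.sum (D.ll_term hs)

lemma ll_diff (D : GD x c δ σ) {s : ℂ} (hs : σ < s.re) : DifferentiableAt ℂ (ll x c) s := by
  have ho : IsOpen {s : ℂ | σ < s.re} := isOpen_lt continuous_const Complex.continuous_re
  have h1 : DifferentiableOn ℂ (ll x c) {s : ℂ | σ < s.re} := by
    refine differentiableOn_tsum_of_summable_norm D.sum (fun i => ?_) ho fun i s hs => ?_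
    · exact fun z _ => DifferentiableAt.differentiableWithinAt (by fun_prop)
    · exact D.ll_term (le_of_lt hs) i
  exact h1.differentiableAt (ho.mem_nhds hs)

/-- exponential decay -/
lemma ll_le (D : GD x c δ σ) {s : ℂ} (hs : σ ≤ s.re) :
    ‖ll x c s‖ ≤ S₀ x c σ * Real.exp (-(δ * (s.re - σ))) := by
  unfold ll S₀
  rw [← tsum_mul_right]
  refine tsum_of_norm_bounded (D.sum.mul_right _).hasSum fun i => ?_
  rw [norm_mul, exp_norm, mul_assoc, ← Real.exp_add]
  refine mul_le_mul_of_nonneg_left (Real.exp_le_exp.2 ?_) (norm_nonneg _)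
  have := mul_le_mul_of_nonneg_left (D.ge i) (sub_nonneg.2 hs)
  nlinarith

lemma ll_deriv_le (D : GD x c δ σ) {s : ℂ} (hs : σ + 1 < s.re) :
    ‖deriv (ll x c) s‖ ≤ S₀ x c σ * Real.exp (-(δ * (s.re - σ - 1))) := by
  have hball : ∀ w ∈ Metric.closedBall s 1, s.re - 1 ≤ w.re := by
    intro w hw
    rw [Metric.mem_closedBall, dist_eq_norm] at hw
    have h1 := (abs_le.1 ((Complex.abs_re_le_norm (w - s)).trans hw)).1
    rw [Complex.sub_re] at h1
    linarith
  have h1 : DiffContOnCl ℂ (ll x c) (Metric.ball s 1) := by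
    refine DifferentiableOn.diffContOnCl ?_
    rw [closure_ball s one_ne_zero]
    intro w hw
    exact (D.ll_diff (by linarith [hball w hw])).differentiableWithinAt
  have h2 := Complex.norm_deriv_le_of_forall_mem_sphere_norm_le (c := s) (R := 1) one_pos h1
    (C := S₀ x c σ * Real.exp (-(δ * (s.re - σ - 1)))) (fun w hw => by
      have h3 := hball w (Metric.sphere_subset_closedBall hw)
      refine (D.ll_le (by linarith)).trans ?_
      refine mul_le_mul_of_nonneg_left (Real.exp_le_exp.2 ?_) S₀_nonneg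
      have := mul_le_mul_of_nonneg_left h3 D.δ0.le
      nlinarith)
  simpa using h2

lemma G_term (D : GD x c δ σ) {T : ℝ} (hT : 0 < T) (i : ι) : ‖c i * (kr (x i) T : ℂ)‖ ≤
    (kB δ * T ^ 2 * Real.exp ((2 * σ ^ 2 + 1) * T)) * (‖c i‖ * Real.exp (-(σ * x i))) := by
  rw [norm_mul, Complex.norm_real, Real.norm_of_nonneg (kr_nonneg (D.pos i).le)]
  calc _ ≤ ‖c i‖ * (kB δ * T ^ 2 * Real.exp ((2 * σ ^ 2 + 1) * T) * Real.exp (-(σ * x i))) :=
        mul_le_mul_of_nonneg_left (kr_le D.δ0 (D.ge i) hT) (norm_nonneg _)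
    _ = _ := by ring

lemma G_summable (D : GD x c δ σ) {T : ℝ} (hT : 0 < T) :
    Summable fun i => c i * (kr (x i) T : ℂ) :=
  Summable.of_norm_bounded (D.sum.mul_left _) (D.G_term hT)

lemma G_zero {T : ℝ} (hT : T ≤ 0) : G x c T = 0 := by
  unfold G
  simp [kr_zero hT]

/-- growth of the Gaussian sum -/
lemma G_le (D : GD x c δ σ) {T : ℝ} (hT : 0 < T) :
    ‖G x c T‖ ≤ (kB δ * S₀ x c σ) * T ^ 2 * Real.exp ((2 * σ ^ 2 + 1) * T) := by
  unfold G
  have h1 := tsum_of_norm_bounded (D.sum.mul_left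
    (kB δ * T ^ 2 * Real.exp ((2 * σ ^ 2 + 1) * T))).hasSum (D.G_term hT)
  refine h1.trans (le_of_eq ?_)
  rw [tsum_mul_left]
  unfold S₀
  ring

lemma G_cont (D : GD x c δ σ) : Continuous (G x c) := by
  rw [continuous_iff_continuousAt]
  intro T
  rcases lt_trichotomy T 0 with hT | hT | hT
  · refine (continuousAt_const (y := (0 : ℂ))).congr ?_
    filter_upwards [gt_mem_nhds hT] with t ht
    exact (G_zero (le_of_lt ht)).symm
  · subst hT
    have h0 : G x c 0 = 0 := G_zero le_rfl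
    unfold ContinuousAt
    rw [h0]
    have h1 : Tendsto (fun t : ℝ => (kB δ * S₀ x c σ) * t ^ 2 * Real.exp ((2 * σ ^ 2 + 1) * t))
        (𝓝 0) (𝓝 0) := by
      have h2 : Continuous (fun t : ℝ => (kB δ * S₀ x c σ) * t ^ 2 *
        Real.exp ((2 * σ ^ 2 + 1) * t)) := by fun_prop
      have h3 := h2.tendsto 0
      simpa using h3
    refine squeeze_zero_norm (fun t => ?_) h1
    rcases le_or_gt t 0 with ht | ht
    · rw [G_zero ht, norm_zero]
      have := kB_nonneg D.δ0
      have := S₀_nonneg (x := x) (c := c) (σ := σ)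
      positivity
    · exact D.G_le ht
  · have h1 : ContinuousOn (G x c) (Ioo (T / 2) (2 * T)) := by
      unfold G
      refine continuousOn_tsum (u := fun i => (kB δ * (2 * T) ^ 2 *
        Real.exp ((2 * σ ^ 2 + 1) * (2 * T))) * (‖c i‖ * Real.exp (-(σ * x i))))
        (fun i => ?_) (D.sum.mul_left _) fun i t ht => ?_
      · refine continuousOn_const.mul (Complex.continuous_ofReal.comp_continuousOn
          ((kr_cont (x i)).mono fun t ht => ?_))
        have := ht.1
        change 0 < t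
        linarith
      · have ht0 : 0 < t := by
          have := ht.1
          linarith
        refine (D.G_term ht0 i).trans ?_
        have hk := kB_nonneg D.δ0
        have h2 := ht.2.le
        gcongr
    exact h1.continuousAt (Ioo_mem_nhds (by linarith) (by linarith))

/-- **the Laplace transform of the Gaussian sum** -/
theorem G_lap (D : GD x c δ σ) [Countable ι] {r : ℝ} (hr : σ ≤ r) :
    lap (fun t => G x c t / t) ((r : ℂ) ^ 2) = ll x c r := by
  have hr0 : 0 < r := D.σ0.trans_le hr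
  set F : ι → ℝ → ℂ := fun i t => c i * ((Real.exp (-(r ^ 2 * t)) * (kr (x i) t / t) : ℝ) : ℂ)
    with hF
  have h1 : ∀ i, Integrable (F i) (volume.restrict (Ioi (0 : ℝ))) := fun i =>
    ((kr_lap (D.pos i) hr0).1.ofReal).const_mul (c i)
  have h2 : ∀ i, ∫ t in Ioi (0 : ℝ), ‖F i t‖ = ‖c i‖ * Real.exp (-(r * x i)) := by
    intro i
    rw [← (kr_lap (D.pos i) hr0).2, ← integral_const_mul]
    refine setIntegral_congr_fun measurableSet_Ioi fun t ht => ?_
    have ht0 : (0 : ℝ) < t := ht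
    have := kr_nonneg (x := x i) (T := t) (D.pos i).le
    simp only [hF]
    rw [norm_mul, Complex.norm_real, Real.norm_of_nonneg (by positivity)]
  have h3 : Summable fun i => ∫ t in Ioi (0 : ℝ), ‖F i t‖ := by
    refine Summable.of_nonneg_of_le (fun i => integral_nonneg fun t => norm_nonneg _)
      (fun i => ?_) D.sum
    rw [h2]
    refine mul_le_mul_of_nonneg_left (Real.exp_le_exp.2 ?_) (norm_nonneg _)
    have := mul_le_mul_of_nonneg_right hr (D.pos i).le
    linarith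
  have h4 := hasSum_integral_of_summable_integral_norm h1 h3
  have h5 : ∀ i, ∫ t in Ioi (0 : ℝ), F i t = c i * exp (-((r : ℂ) * x i)) := by
    intro i
    simp only [hF]
    rw [integral_const_mul, integral_complex_ofReal, (kr_lap (D.pos i) hr0).2]
    push_cast
    rfl
  simp only [h5] at h4
  unfold lap ll
  rw [h4.tsum_eq]
  refine setIntegral_congr_fun measurableSet_Ioi fun t ht => ?_
  simp only [hF]
  unfold G
  rw [← tsum_div_const, ← tsum_mul_left]
  refine tsum_congr fun i => ?_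
  push_cast
  ring

end GD

end Pool.Agent.V11291.GS
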