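import Pool.Agent.TH942.SL.Line
import Pool.Agent.TH942.SL.Prim

/-!
# Laplace transforms of functions of exponential growth
-/

set_option autoImplicit false

open MeasureTheory Filter Topology Set Complex
open Pool.Agent.TH942.SL (V)

namespace Pool.Agent.V11291.GS

/-- the Laplace transform -/
noncomputable def lap (f : ℝ → ℂ) (v : ℂ) : ℂ := ∫ t in Ioi (0 : ℝ), exp (-(v * t)) * f t

/-- growth at most `exp(τ t)` -/
structure Bd (f : ℝ → ℂ) (K τ : ℝ) : Prop where
  meas : AEStronglyMeasurable f (volume.restrict (Ioi 0))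
  K0 : 0 ≤ K
  bd : ∀ t : ℝ, 0 < t → ‖f t‖ ≤ K * Real.exp (τ * t)

lemma exp_norm (v : ℂ) (t : ℝ) : ‖exp (-(v * t))‖ = Real.exp (-(v.re * t)) := by
  rw [Complex.norm_exp, Complex.neg_re, Complex.re_mul_ofReal]

lemma t_le {a t : ℝ} (ha : 0 < a) : t ≤ a⁻¹ * Real.exp (a * t) := by
  have h1 := Real.add_one_le_exp (a * t)
  rw [inv_mul_eq_div, le_div_iff₀ ha]
  linarith

lemma exp_meas (v : ℂ) : AEStronglyMeasurable (fun t : ℝ => exp (-(v * t)))
    (volume.restrict (Ioi 0)) := Continuous.aestronglyMeasurable (by fun_prop)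

lemma Bd.int {f : ℝ → ℂ} {K τ : ℝ} (h : Bd f K τ) {v : ℂ} (hv : τ < v.re) :
    IntegrableOn (fun t : ℝ => exp (-(v * t)) * f t) (Ioi 0) := by
  have h1 : IntegrableOn (fun t : ℝ => K * Real.exp (-(v.re - τ) * t)) (Ioi 0) :=
    (integrableOn_exp_mul_Ioi (a := -(v.re - τ)) (by linarith) 0).const_mul _
  refine Integrable.mono' h1 ((exp_meas v).mul h.meas) ?_
  filter_upwards [ae_restrict_mem measurableSet_Ioi] with t ht
  rw [norm_mul, exp_norm]
  calc _ ≤ Real.exp (-(v.re * t)) * (K * Real.exp (τ * t)) :=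
        mul_le_mul_of_nonneg_left (h.bd t ht) (Real.exp_pos _).le
    _ = K * (Real.exp (-(v.re * t)) * Real.exp (τ * t)) := by ring
    _ = _ := by
      rw [← Real.exp_add]
      congr 2
      ring

/-- the Laplace transform is holomorphic -/
theorem Bd.deriv {f : ℝ → ℂ} {K τ : ℝ} (h : Bd f K τ) {v : ℂ} (hv : τ < v.re) :
    HasDerivAt (lap f) (-lap (fun t => t * f t) v) v := by
  set e : ℝ := (v.re - τ) / 2 with he
  have he0 : 0 < e := by rw [he]; linarith
  have hs : {w : ℂ | τ + e < w.re} ∈ 𝓝 v := by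
    refine (isOpen_lt continuous_const Complex.continuous_re).mem_nhds ?_
    change τ + e < v.re
    rw [he]; linarith
  have hb : IntegrableOn (fun t : ℝ => (K * (e / 2)⁻¹) * Real.exp (-(e / 2) * t)) (Ioi 0) :=
    (integrableOn_exp_mul_Ioi (a := -(e / 2)) (by linarith) 0).const_mul _
  have key := hasDerivAt_integral_of_dominated_loc_of_deriv_le
    (μ := volume.restrict (Ioi (0 : ℝ))) (x₀ := v)
    (F := fun (w : ℂ) (t : ℝ) => exp (-(w * t)) * f t)
    (F' := fun (w : ℂ) (t : ℝ) => -(exp (-(w * t)) * (t * f t)))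
    (bound := fun t : ℝ => (K * (e / 2)⁻¹) * Real.exp (-(e / 2) * t))
    hs (Eventually.of_forall fun w => (exp_meas w).mul h.meas) (h.int hv)
    (by
      refine ((exp_meas v).mul (AEStronglyMeasurable.mul ?_ h.meas)).neg
      exact Continuous.aestronglyMeasurable (by fun_prop))
    (by
      filter_upwards [ae_restrict_mem measurableSet_Ioi] with t ht w hw
      have ht0 : (0 : ℝ) < t := ht
      have hw1 : τ + e < w.re := hw
      rw [norm_neg, norm_mul, exp_norm, norm_mul, Complex.norm_real, Real.norm_eq_abs,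
        abs_of_pos ht0]
      have e1 := h.bd t ht
      have e2 := t_le (t := t) (half_pos he0)
      have hK := h.K0
      calc _ ≤ Real.exp (-((τ + e) * t)) * ((((e / 2)⁻¹) * Real.exp (e / 2 * t)) *
            (K * Real.exp (τ * t))) := by
            refine mul_le_mul (Real.exp_le_exp.2 ?_) (mul_le_mul e2 e1 (norm_nonneg _)
              (by positivity)) (by positivity) (Real.exp_pos _).le
            have := mul_le_mul_of_nonneg_right hw1.le ht0.le
            linarith
        _ = (K * (e / 2)⁻¹) * (Real.exp (-((τ + e) * t)) * Real.exp (e / 2 * t) *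
            Real.exp (τ * t)) := by ring
        _ = _ := by
          rw [← Real.exp_add, ← Real.exp_add]
          congr 2
          ring)
    hb
    (by
      refine ae_of_all _ fun t w _ => ?_
      have h1 : HasDerivAt (fun w : ℂ => exp (-(w * t))) (exp (-(w * t)) * (-(1 * (t : ℂ)))) w :=
        (((hasDerivAt_id w).mul_const (t : ℂ)).fun_neg).cexp
      refine (h1.mul_const (f t)).congr_deriv ?_
      ring)
  refine key.2.congr_deriv ?_
  rw [integral_neg]
  rfl

lemma Bd.diff {f : ℝ → ℂ} {K τ : ℝ} (h : Bd f K τ) {v : ℂ} (hv : τ < v.re) :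
    DifferentiableAt ℂ (lap f) v := (h.deriv hv).differentiableAt

/-- **inversion of the Laplace transform** -/
theorem inv_lap {g : ℝ → ℂ} (hgc : Continuous g) (hg0 : ∀ y, y ≤ 0 → g y = 0) {K x₀ x : ℝ}
    (hK : 0 ≤ K) (hgb : ∀ y, 0 < y → ‖g y‖ ≤ K * Real.exp (x₀ * y)) (hx : x₀ < x) {H : ℂ → ℂ}
    (hH : ∀ v : ℂ, v.re = x → lap g v = H v)
    (hi : Integrable fun t : ℝ => H (x + t * I)) (y : ℝ) :
    g y = V x (fun z => exp (z * y) * H z) := by
  have h2pi : (0 : ℝ) < 2 * Real.pi := by positivity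
  have hB : Bd g K x₀ := ⟨hgc.aestronglyMeasurable, hK, hgb⟩
  set f : ℝ → ℂ := fun y => exp (-((x : ℂ) * y)) * g y with hf
  have hfc : Continuous f := by rw [hf]; fun_prop
  have hf0 : ∀ y, y ≤ 0 → f y = 0 := fun y hy => by
    rw [hf]
    simp only
    rw [hg0 y hy, mul_zero]
  have hfi : Integrable f := by
    have h1 : IntegrableOn f (Ioi 0) := hB.int (v := (x : ℂ)) (by simpa using hx)
    rw [← integrableOn_univ, ← Iic_union_Ioi (a := (0 : ℝ))]
    refine IntegrableOn.union ?_ h1
    exact (integrableOn_zero).congr_fun (fun y hy => (hf0 y hy).symm) measurableSet_Iic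
  have hF : ∀ ξ : ℝ, FourierTransform.fourier f ξ = H (x + (2 * Real.pi * ξ : ℝ) * I) := by
    intro ξ
    rw [Real.fourier_eq']
    have h2 : ∫ v : ℝ, exp ((-2 * Real.pi * inner ℝ v ξ : ℝ) * I) • f v =
        ∫ v in Ioi (0 : ℝ), exp ((-2 * Real.pi * inner ℝ v ξ : ℝ) * I) • f v := by
      symm
      refine setIntegral_eq_integral_of_forall_compl_eq_zero fun v hv => ?_
      rw [hf0 v (by simpa using hv), smul_zero]
    rw [h2, ← hH _ (by simp)]
    unfold lap
    refine setIntegral_congr_fun measurableSet_Ioi fun v hv => ?_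
    rw [hf]
    simp only
    rw [smul_eq_mul, ← mul_assoc, ← Complex.exp_add]
    congr 2
    simp only [RCLike.inner_apply, conj_trivial]
    push_cast
    ring
  have hFi : Integrable (FourierTransform.fourier f) := by
    have h1 := hi.comp_mul_left' (R := 2 * Real.pi) (by positivity)
    refine h1.congr (ae_of_all _ fun ξ => ?_)
    rw [hF]
  have h1 := hfi.fourierInv_fourier_eq hFi (v := y) hfc.continuousAt
  rw [Real.fourierInv_eq'] at h1
  simp only [hF] at h1
  have h2 := Measure.integral_comp_mul_left (fun t : ℝ => exp ((t * y : ℝ) * I) *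
    H (x + t * I)) (2 * Real.pi)
  have e1 : ∀ ξ : ℝ, exp ((2 * Real.pi * inner ℝ ξ y : ℝ) * I) •
      H (x + (2 * Real.pi * ξ : ℝ) * I) =
      exp (((2 * Real.pi * ξ) * y : ℝ) * I) * H (x + (2 * Real.pi * ξ : ℝ) * I) := by
    intro ξ
    rw [smul_eq_mul]
    congr 3
    rw [RCLike.inner_apply]
    simp
    ring
  simp only [e1] at h1
  rw [h2, abs_of_pos (by positivity), Complex.real_smul] at h1
  unfold V
  have e2 : ∀ t : ℝ, exp (((x : ℂ) + t * I) * y) * H (x + t * I) =
      exp (x * y) * (exp ((t * y : ℝ) * I) * H (x + t * I)) := by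
    intro t
    rw [← mul_assoc, ← Complex.exp_add]
    congr 2
    push_cast
    ring
  simp only [e2]
  rw [integral_const_mul, mul_left_comm, h1, hf]
  simp only
  rw [← mul_assoc, ← Complex.exp_add]
  simp

end Pool.Agent.V11291.GS
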