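import Pool.Agent.V11291.GS.Ker

/-!
# The Gaussian sum corrected by the zeros and poles
-/

set_option autoImplicit false

open MeasureTheory Filter Topology Set Complex

namespace Pool.Agent.V11291.GS

lemma pow_key {v : ℝ} (hr : 0 < v) (n : ℕ) :
    IntegrableOn (fun y : ℝ => y ^ n * Real.exp (-(v * y))) (Ioi 0) ∧
      ∫ y in Ioi (0 : ℝ), y ^ n * Real.exp (-(v * y)) = n.factorial * (v ^ (n + 1))⁻¹ := by
  have e1 := Real.integral_rpow_mul_exp_neg_mul_Ioi (a := n + 1) (r := v) (by positivity) hr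
  have e2 : ∫ y in Ioi (0 : ℝ), y ^ n * Real.exp (-(v * y)) =
      ∫ t in Ioi (0 : ℝ), t ^ (((n : ℝ) + 1) - 1) * Real.exp (-(v * t)) := by
    refine setIntegral_congr_fun measurableSet_Ioi fun y hy => ?_
    simp only [add_sub_cancel_right, Real.rpow_natCast]
  rw [← e2, Real.Gamma_nat_eq_factorial] at e1
  have e3 : (1 / v) ^ ((n : ℝ) + 1) = (v ^ (n + 1))⁻¹ := by
    rw [show ((n : ℝ) + 1) = ((n + 1 : ℕ) : ℝ) by push_cast; ring, Real.rpow_natCast, one_div,
      inv_pow]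
  rw [e3] at e1
  have e4 : ∫ y in Ioi (0 : ℝ), y ^ n * Real.exp (-(v * y)) =
      n.factorial * (v ^ (n + 1))⁻¹ := by
    rw [e1]
    ring
  refine ⟨?_, e4⟩
  by_contra h
  rw [integral_undef h] at e4
  have : (0 : ℝ) < n.factorial * (v ^ (n + 1))⁻¹ := by positivity
  linarith

/-- `exp(b t) - 1` -/
noncomputable def em (b : ℂ) (t : ℝ) : ℂ := exp (b * t) - 1

lemma em_cont (b : ℂ) : Continuous (em b) := by
  unfold em
  fun_prop

lemma em_zero (b : ℂ) : em b 0 = 0 := by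
  unfold em
  simp

lemma em_le (b : ℂ) {t : ℝ} (ht : 0 ≤ t) : ‖em b t‖ ≤ ‖b‖ * t * Real.exp (‖b‖ * t) := by
  have h1 := Complex.norm_exp_sub_sum_le_norm_mul_exp (b * t) 1
  simp only [Finset.range_one, Finset.sum_singleton, pow_zero, Nat.factorial_zero, Nat.cast_one,
    div_one, pow_one] at h1
  have h2 : ‖b * (t : ℂ)‖ = ‖b‖ * t := by
    rw [norm_mul, Complex.norm_real, Real.norm_of_nonneg ht]
  rw [h2] at h1
  exact h1

lemma em_bd (b : ℂ) : Bd (fun t => em b t / t) ‖b‖ ‖b‖ where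
  meas := by
    refine AEStronglyMeasurable.div₀ ?_ ?_ 
    · exact (em_cont b).aestronglyMeasurable
    · exact Continuous.aestronglyMeasurable (by fun_prop)
  K0 := norm_nonneg _
  bd := fun t ht => by
    rw [norm_div, Complex.norm_real, Real.norm_of_nonneg ht.le, div_le_iff₀ ht]
    refine (em_le b ht.le).trans (le_of_eq ?_)
    ring

/-- the Laplace transform -/
theorem em_lap {b : ℂ} {v : ℝ} (hv : ‖b‖ < v) :
    exp (lap (fun t => em b t / t) v) = (1 - b / v)⁻¹ := by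
  have hr : 0 < v := (norm_nonneg b).trans_lt hv
  have hz : ‖b / (v : ℂ)‖ < 1 := by
    rw [norm_div, Complex.norm_real, Real.norm_of_nonneg hr.le, div_lt_one hr]
    exact hv
  set T : ℕ → ℝ → ℂ := fun n y => (b ^ (n + 1) / ((n + 1).factorial : ℂ)) *
    ((y ^ n * Real.exp (-(v * y)) : ℝ) : ℂ) with hT
  have hTi : ∀ n, Integrable (T n) (volume.restrict (Ioi 0)) := fun n =>
    ((pow_key hr n).1.ofReal).const_mul _
  have hTn : ∀ n, ∫ y in Ioi (0 : ℝ), T n y = (b / v) ^ (n + 1) / (n + 1) := by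
    intro n
    simp only [hT]
    rw [integral_const_mul, integral_complex_ofReal, (pow_key hr n).2]
    have hf : (n.factorial : ℂ) ≠ 0 := by exact_mod_cast n.factorial_ne_zero
    have h1 : (n : ℂ) + 1 ≠ 0 := by exact_mod_cast n.succ_ne_zero
    have hv0 : (v : ℂ) ≠ 0 := by exact_mod_cast hr.ne'
    rw [Nat.factorial_succ]
    push_cast
    rw [div_pow]
    field_simp
  have hTnorm : ∀ n, ∫ y in Ioi (0 : ℝ), ‖T n y‖ = (‖b‖ / v) ^ (n + 1) / (n + 1) := by
    intro n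
    have e1 : ∫ y in Ioi (0 : ℝ), ‖T n y‖ = ∫ y in Ioi (0 : ℝ),
        (‖b‖ ^ (n + 1) / ((n + 1).factorial : ℝ)) * (y ^ n * Real.exp (-(v * y))) := by
      refine setIntegral_congr_fun measurableSet_Ioi fun y hy => ?_
      have hy0 : (0 : ℝ) < y := hy
      simp only [hT]
      rw [norm_mul, norm_div, norm_pow, Complex.norm_natCast, Complex.norm_real,
        Real.norm_of_nonneg (by positivity)]
    rw [e1, integral_const_mul, (pow_key hr n).2]
    have hf : (n.factorial : ℝ) ≠ 0 := by exact_mod_cast n.factorial_ne_zero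
    rw [Nat.factorial_succ]
    push_cast
    rw [div_pow]
    field_simp
  have hsum : Summable fun n => ∫ y in Ioi (0 : ℝ), ‖T n y‖ := by
    have hg : Summable fun n : ℕ => (‖b‖ / v) ^ (n + 1) :=
      (summable_nat_add_iff 1).2 (summable_geometric_of_lt_one (by positivity)
        ((div_lt_one hr).2 hv))
    refine Summable.of_nonneg_of_le (fun n => integral_nonneg fun t => norm_nonneg _)
      (fun n => ?_) hg
    rw [hTnorm]
    refine div_le_self (by positivity) ?_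
    have : (0 : ℝ) ≤ n := n.cast_nonneg
    linarith
  have h1 := hasSum_integral_of_summable_integral_norm hTi hsum
  simp only [hTn] at h1
  have h2 := h1.unique (hasSum_taylorSeries_neg_log' hz)
  have h3 : lap (fun t => em b t / t) v = -log (1 - b / v) := by
    rw [← h2]
    unfold lap
    refine setIntegral_congr_fun measurableSet_Ioi fun y hy => ?_
    have hy0 : (y : ℂ) ≠ 0 := by exact_mod_cast (ne_of_gt hy)
    have h4 : HasSum (fun n : ℕ => (b * y) ^ (n + 1) / ((n + 1).factorial : ℂ)) (em b y) := by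
      unfold em
      have h5 : HasSum (fun n : ℕ => (b * y) ^ n / (n.factorial : ℂ)) (exp (b * y)) := by
        rw [Complex.exp_eq_exp_ℂ]
        exact NormedSpace.expSeries_div_hasSum_exp (b * y)
      have h6 := (hasSum_nat_add_iff' 1).2 h5
      simpa using h6
    have h5 := (h4.div_const (y : ℂ)).mul_left (exp (-((v : ℂ) * y)))
    simp only
    rw [← h5.tsum_eq]
    refine tsum_congr fun n => ?_
    simp only [hT]
    push_cast
    field_simp
    rw [mul_pow]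
    ring
  have h4 : (1 : ℂ) - b / v ≠ 0 := by
    intro h
    rw [sub_eq_zero] at h
    rw [← h, norm_one] at hz
    exact lt_irrefl _ hz
  rw [h3, Complex.exp_neg, Complex.exp_log h4]

variable {ι : Type*} {x : ι → ℝ} {c : ι → ℂ} {δ σ : ℝ} {Z : Finset ℂ} {m : ℂ → ℤ}

/-- the corrected Gaussian sum -/
noncomputable def gg (x : ι → ℝ) (c : ι → ℂ) (Z : Finset ℂ) (m : ℂ → ℤ) (t : ℝ) : ℂ :=
  G x c t + ∑ β ∈ Z, (m β : ℂ) * em (β ^ 2) (max t 0)

/-- the constants -/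
noncomputable def Kc (x : ι → ℝ) (c : ι → ℂ) (δ σ : ℝ) (Z : Finset ℂ) (m : ℂ → ℤ) : ℝ :=
  kB δ * S₀ x c σ + ∑ β ∈ Z, ‖(m β : ℂ)‖ * ‖β ^ 2‖

/-- the constants -/
noncomputable def tc (σ : ℝ) (Z : Finset ℂ) : ℝ := 2 * σ ^ 2 + 1 + 1 + ∑ β ∈ Z, ‖β ^ 2‖

lemma tc_ge (σ : ℝ) {Z : Finset ℂ} {β : ℂ} (hβ : β ∈ Z) : ‖β ^ 2‖ ≤ tc σ Z := by
  unfold tc
  have h1 := Finset.single_le_sum (f := fun β : ℂ => ‖β ^ 2‖) (fun β _ => norm_nonneg _) hβ
  nlinarith [sq_nonneg σ]

lemma tc_ge' (σ : ℝ) (Z : Finset ℂ) : 2 * σ ^ 2 + 1 + 1 ≤ tc σ Z := by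
  unfold tc
  have : 0 ≤ ∑ β ∈ Z, ‖β ^ 2‖ := Finset.sum_nonneg fun β _ => norm_nonneg _
  linarith

lemma gg_pos {t : ℝ} (ht : 0 ≤ t) :
    gg x c Z m t = G x c t + ∑ β ∈ Z, (m β : ℂ) * em (β ^ 2) t := by
  unfold gg
  rw [max_eq_left ht]

lemma gg_zero {t : ℝ} (ht : t ≤ 0) : gg x c Z m t = 0 := by
  unfold gg
  rw [max_eq_right ht, GD.G_zero ht]
  simp [em_zero]

namespace GD

lemma gg_cont (D : GD x c δ σ) : Continuous (gg x c Z m) := by
  unfold gg
  refine D.G_cont.add (continuous_finsetSum _ fun β _ => continuous_const.mul ?_)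
  exact (em_cont _).comp (continuous_id.max continuous_const)

lemma Kc_nonneg (D : GD x c δ σ) : 0 ≤ Kc x c δ σ Z m := by
  unfold Kc
  have h1 := kB_nonneg D.δ0
  have h2 := S₀_nonneg (x := x) (c := c) (σ := σ)
  have h3 : 0 ≤ ∑ β ∈ Z, ‖(m β : ℂ)‖ * ‖β ^ 2‖ :=
    Finset.sum_nonneg fun β _ => by positivity
  positivity

lemma gg_le (D : GD x c δ σ) {t : ℝ} (ht : 0 < t) :
    ‖gg x c Z m t‖ ≤ Kc x c δ σ Z m * t * Real.exp (tc σ Z * t) := by
  rw [gg_pos ht.le]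
  have h1 := D.G_le ht
  have hk := kB_nonneg D.δ0
  have hS := S₀_nonneg (x := x) (c := c) (σ := σ)
  have h2 : (kB δ * S₀ x c σ) * t ^ 2 * Real.exp ((2 * σ ^ 2 + 1) * t) ≤
      (kB δ * S₀ x c σ) * t * Real.exp (tc σ Z * t) := by
    have e1 : t ≤ Real.exp t := by
      have := Real.add_one_le_exp t
      linarith
    have e2 : Real.exp t * Real.exp ((2 * σ ^ 2 + 1) * t) ≤ Real.exp (tc σ Z * t) := by
      rw [← Real.exp_add]
      refine Real.exp_le_exp.2 ?_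
      have := mul_le_mul_of_nonneg_right (tc_ge' σ Z) ht.le
      linarith
    calc _ = (kB δ * S₀ x c σ) * t * (t * Real.exp ((2 * σ ^ 2 + 1) * t)) := by ring
      _ ≤ (kB δ * S₀ x c σ) * t * (Real.exp t * Real.exp ((2 * σ ^ 2 + 1) * t)) := by gcongr
      _ ≤ _ := by gcongr
  have h3 : ‖∑ β ∈ Z, (m β : ℂ) * em (β ^ 2) t‖ ≤
      (∑ β ∈ Z, ‖(m β : ℂ)‖ * ‖β ^ 2‖) * t * Real.exp (tc σ Z * t) := by
    rw [Finset.sum_mul, Finset.sum_mul]
    refine (norm_sum_le _ _).trans (Finset.sum_le_sum fun β hβ => ?_)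
    rw [norm_mul]
    have e1 := em_le (β ^ 2) ht.le
    have e2 : Real.exp (‖β ^ 2‖ * t) ≤ Real.exp (tc σ Z * t) :=
      Real.exp_le_exp.2 (mul_le_mul_of_nonneg_right (tc_ge σ hβ) ht.le)
    calc _ ≤ ‖(m β : ℂ)‖ * (‖β ^ 2‖ * t * Real.exp (‖β ^ 2‖ * t)) := by gcongr
      _ ≤ ‖(m β : ℂ)‖ * (‖β ^ 2‖ * t * Real.exp (tc σ Z * t)) := by gcongr
      _ = _ := by ring
  refine (norm_add_le _ _).trans ((add_le_add (h1.trans h2) h3).trans (le_of_eq ?_))
  unfold Kc
  ring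

lemma gg_meas (D : GD x c δ σ) :
    AEStronglyMeasurable (fun t : ℝ => gg x c Z m t / t) (volume.restrict (Ioi 0)) :=
  AEStronglyMeasurable.div₀ D.gg_cont.aestronglyMeasurable
    (Continuous.aestronglyMeasurable (by fun_prop))

lemma gg_bd (D : GD x c δ σ) : Bd (fun t => gg x c Z m t / t) (Kc x c δ σ Z m) (tc σ Z) where
  meas := D.gg_meas
  K0 := D.Kc_nonneg
  bd := fun t ht => by
    rw [norm_div, Complex.norm_real, Real.norm_of_nonneg ht.le, div_le_iff₀ ht]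
    refine (D.gg_le ht).trans (le_of_eq ?_)
    ring

lemma G_bd (D : GD x c δ σ) : Bd (fun t => G x c t / t) (kB δ * S₀ x c σ) (2 * σ ^ 2 + 1 + 1) where
  meas := AEStronglyMeasurable.div₀ D.G_cont.aestronglyMeasurable
    (Continuous.aestronglyMeasurable (by fun_prop))
  K0 := mul_nonneg (kB_nonneg D.δ0) S₀_nonneg
  bd := fun t ht => by
    rw [norm_div, Complex.norm_real, Real.norm_of_nonneg ht.le, div_le_iff₀ ht]
    have hk := kB_nonneg D.δ0
    have hS := S₀_nonneg (x := x) (c := c) (σ := σ)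
    have e1 : t ≤ Real.exp t := by
      have := Real.add_one_le_exp t
      linarith
    calc _ ≤ (kB δ * S₀ x c σ) * t ^ 2 * Real.exp ((2 * σ ^ 2 + 1) * t) := D.G_le ht
      _ = (kB δ * S₀ x c σ) * t * (t * Real.exp ((2 * σ ^ 2 + 1) * t)) := by ring
      _ ≤ (kB δ * S₀ x c σ) * t * (Real.exp t * Real.exp ((2 * σ ^ 2 + 1) * t)) := by gcongr
      _ = _ := by
        rw [← Real.exp_add]
        have : t + (2 * σ ^ 2 + 1) * t = (2 * σ ^ 2 + 1 + 1) * t := by ring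
        rw [this]
        ring

/-- **the Laplace transform of the corrected sum** -/
theorem gg_lap (D : GD x c δ σ) [Countable ι] {r : ℝ} (hr : σ ≤ r) (hr2 : tc σ Z < r ^ 2) :
    exp (lap (fun t => gg x c Z m t / t) ((r : ℂ) ^ 2)) =
      exp (ll x c r) * ∏ β ∈ Z, ((1 - β ^ 2 / (r : ℂ) ^ 2)⁻¹) ^ m β := by
  have hre : ((r : ℂ) ^ 2).re = r ^ 2 := by
    rw [← Complex.ofReal_pow, Complex.ofReal_re]
  have i1 := D.G_bd.int (v := (r : ℂ) ^ 2) (by rw [hre]; linarith [tc_ge' σ Z])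
  have i2 : ∀ β ∈ Z, IntegrableOn (fun t : ℝ => (m β : ℂ) * (exp (-((r : ℂ) ^ 2 * t)) *
      (em (β ^ 2) t / t))) (Ioi 0) := fun β hβ => Integrable.const_mul
    ((em_bd (β ^ 2)).int (v := (r : ℂ) ^ 2) (by rw [hre]; linarith [tc_ge σ hβ])) _
  have h1 : lap (fun t => gg x c Z m t / t) ((r : ℂ) ^ 2) = ll x c r +
      ∑ β ∈ Z, (m β : ℂ) * lap (fun t => em (β ^ 2) t / t) ((r : ℂ) ^ 2) := by
    rw [← D.G_lap hr]
    unfold lap
    have e1 : ∀ β ∈ Z, (m β : ℂ) * ∫ t in Ioi (0 : ℝ), exp (-((r : ℂ) ^ 2 * t)) *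
        (em (β ^ 2) t / t) = ∫ t in Ioi (0 : ℝ), (m β : ℂ) * (exp (-((r : ℂ) ^ 2 * t)) *
        (em (β ^ 2) t / t)) := fun β _ => (integral_const_mul _ _).symm
    rw [Finset.sum_congr rfl e1, ← integral_finsetSum _ i2, ← integral_add i1
      (integrable_finsetSum _ i2)]
    refine setIntegral_congr_fun measurableSet_Ioi fun t ht => ?_
    simp only
    rw [gg_pos (le_of_lt ht), add_div, mul_add, Finset.sum_div, Finset.mul_sum]
    congr 1
    refine Finset.sum_congr rfl fun β _ => ?_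
    ring
  rw [h1, Complex.exp_add, Complex.exp_sum]
  congr 1
  refine Finset.prod_congr rfl fun β hβ => ?_
  have h2 := em_lap (b := β ^ 2) (v := r ^ 2) (by linarith [tc_ge σ hβ])
  rw [Complex.exp_int_mul]
  push_cast at h2
  rw [h2]

end GD

end Pool.Agent.V11291.GS
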