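import Pool.Agent.V11291.GS.Mod
import Pool.Agent.TH942.SL.Pow

/-!
# The sectors, and the square root
-/

set_option autoImplicit false

open MeasureTheory Filter Topology Set Complex

namespace Pool.Agent.V11291.GS

/-- the sector `|Im s| < Re s + A` -/
def Q (A : ℝ) : Set ℂ := {s | |s.im| < s.re + A}

lemma Q_open (A : ℝ) : IsOpen (Q A) := isOpen_lt (by fun_prop) (by fun_prop)

lemma Q_convex (A : ℝ) : Convex ℝ (Q A) := by
  have h1 : Convex ℝ {s : ℂ | s.im - s.re < A} := convex_halfSpace_lt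
    (f := fun s : ℂ => s.im - s.re) ⟨fun a b => by simp; ring, fun a b => by simp; ring⟩ A
  have h2 : Convex ℝ {s : ℂ | -s.im - s.re < A} := convex_halfSpace_lt
    (f := fun s : ℂ => -s.im - s.re) ⟨fun a b => by simp; ring, fun a b => by simp; ring⟩ A
  have h3 : Q A = {s : ℂ | s.im - s.re < A} ∩ {s : ℂ | -s.im - s.re < A} := by
    ext s
    simp only [Q, Set.mem_ofPred_eq, Set.mem_inter_iff, abs_lt]
    constructor
    · rintro ⟨a, b⟩
      constructor <;> linarith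
    · rintro ⟨a, b⟩
      constructor <;> linarith
  rw [h3]
  exact h1.inter h2

lemma Q_pos {s : ℂ} (h : s ∈ Q 0) : 0 < s.re := by
  have h1 : |s.im| < s.re + 0 := h
  have := abs_nonneg s.im
  linarith

lemma Q_ne {s : ℂ} (h : s ∈ Q 0) : s ≠ 0 := fun h0 => by
  have := Q_pos h
  rw [h0] at this
  simp at this

lemma sq_re (s : ℂ) : (s ^ 2).re = s.re ^ 2 - s.im ^ 2 := by
  rw [pow_two, Complex.mul_re]
  ring

lemma Q_sq {s : ℂ} (h : s ∈ Q 0) : 0 < (s ^ 2).re := by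
  rw [sq_re]
  have h1 : |s.im| < s.re + 0 := h
  rw [add_zero] at h1
  have h2 := sq_lt_sq' (by linarith [abs_nonneg s.im]) h1
  rw [sq_abs] at h2
  linarith

lemma Q_of {s : ℂ} (h0 : 0 < s.re) (h : 0 < (s ^ 2).re) : s ∈ Q 0 := by
  rw [sq_re] at h
  change |s.im| < s.re + 0
  rw [add_zero]
  exact abs_lt_of_sq_lt_sq (by linarith) h0.le

lemma Q_real {r : ℝ} (hr : 0 < r) : (r : ℂ) ∈ Q 0 := by
  change |((r : ℂ)).im| < ((r : ℂ)).re + 0
  simpa using hr

lemma Q_norm {s : ℂ} (h : s ∈ Q 0) : ‖s‖ ^ 2 ≤ 2 * s.re ^ 2 := by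
  have h1 := Q_sq h
  rw [sq_re] at h1
  rw [← Complex.normSq_eq_norm_sq, Complex.normSq_apply]
  nlinarith

/-- the identity theorem -/
theorem ident {U : Set ℂ} (hUo : IsOpen U) (hUc : Convex ℝ U) {f g : ℂ → ℂ}
    (hf : ∀ s ∈ U, DifferentiableAt ℂ f s) (hg : ∀ s ∈ U, DifferentiableAt ℂ g s) {R : ℝ}
    (hR : ∀ r : ℝ, R < r → (r : ℂ) ∈ U ∧ f r = g r) : ∀ s ∈ U, f s = g s := by
  have hf' : AnalyticOnNhd ℂ f U :=
    DifferentiableOn.analyticOnNhd (fun s hs => (hf s hs).differentiableWithinAt) hUo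
  have hg' : AnalyticOnNhd ℂ g U :=
    DifferentiableOn.analyticOnNhd (fun s hs => (hg s hs).differentiableWithinAt) hUo
  have h1 : Tendsto (fun r : ℝ => (r : ℂ)) (𝓝[≠] (R + 1)) (𝓝[≠] ((R + 1 : ℝ) : ℂ)) := by
    refine tendsto_nhdsWithin_iff.2
      ⟨(Complex.continuous_ofReal.tendsto _).mono_left nhdsWithin_le_nhds, ?_⟩
    filter_upwards [self_mem_nhdsWithin] with r hr
    intro h
    exact hr (Complex.ofReal_injective h)
  have h2 : ∀ᶠ r : ℝ in 𝓝[≠] (R + 1), f r = g r := by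
    filter_upwards [mem_nhdsWithin_of_mem_nhds (lt_mem_nhds (lt_add_one R))] with r hr
    exact (hR r hr).2
  exact hf'.eqOn_of_preconnected_of_frequently_eq hg' hUc.isPreconnected
    (hR (R + 1) (lt_add_one R)).1 (h1.frequently h2.frequently)

/-- the square root in the right half plane -/
noncomputable def sr (v : ℂ) : ℂ := v ^ (((1 / 2 : ℝ)) : ℂ)

lemma sr_sq {v : ℂ} (hv : 0 < v.re) : sr v ^ 2 = v := by
  unfold sr
  have h1 := Complex.cpow_nat_inv_pow v (n := 2) (by norm_num)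
  have h2 : (((1 / 2 : ℝ)) : ℂ) = (((2 : ℕ) : ℂ))⁻¹ := by
    push_cast
    norm_num
  rw [h2]
  exact h1

lemma sr_mem {v : ℂ} (hv : 0 < v.re) : sr v ∈ Q 0 := by
  refine Q_of (Pool.Agent.TH942.SL.re_pow_pos (by norm_num) (by norm_num) hv) ?_
  rw [sr_sq hv]
  exact hv

lemma sr_deriv {v : ℂ} (hv : 0 < v.re) : HasDerivAt sr (1 / (2 * sr v)) v := by
  have h1 := Pool.Agent.TH942.SL.pow_deriv (α := 1 / 2) (Pool.Agent.TH942.SL.slit hv)
  refine h1.congr_deriv ?_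
  have hv0 := Pool.Agent.TH942.SL.ne_zero' hv
  have h2 : sr v ≠ 0 := Q_ne (sr_mem hv)
  have h3 := sr_sq hv
  rw [Complex.cpow_sub _ _ hv0, Complex.cpow_one]
  change (((1 / 2 : ℝ)) : ℂ) * (sr v / v) = 1 / (2 * sr v)
  nth_rewrite 2 [← h3]
  push_cast
  field_simp

lemma sr_real {r : ℝ} (hr : 0 < r) : sr ((r : ℂ) ^ 2) = r := by
  have h0 : 0 < ((r : ℂ) ^ 2).re := by
    rw [← Complex.ofReal_pow, Complex.ofReal_re]
    positivity
  have h1 := sr_sq h0
  have h2 := Q_pos (sr_mem h0)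
  have h3 : (sr ((r : ℂ) ^ 2) - r) * (sr ((r : ℂ) ^ 2) + r) = 0 := by
    linear_combination h1
  rcases mul_eq_zero.1 h3 with h | h
  · exact sub_eq_zero.1 h
  · exfalso
    have h4 := congrArg Complex.re h
    rw [Complex.add_re, Complex.ofReal_re, Complex.zero_re] at h4
    linarith

lemma sr_norm {v : ℂ} (hv : 0 < v.re) : ‖sr v‖ ^ 2 = ‖v‖ := by
  rw [← norm_pow, sr_sq hv]

end Pool.Agent.V11291.GS
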