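import Pool.Agent.V11291.GS.Down

/-!
# Continuation ⟹ expansion of the Gaussian sums
-/

set_option autoImplicit false

open MeasureTheory Filter Topology Set Complex
open Pool.Agent.TH942.SL (V shift norm_V_le line_int line_cont decay_int)

namespace Pool.Agent.V11291.GS

variable {ι : Type*} {x : ι → ℝ} {c : ι → ℂ} {δ σ : ℝ} {Z : Finset ℂ} {m : ℂ → ℤ}

lemma exp_four {u : ℝ} (hu : 0 < u) : Real.exp (-u) ≤ 24 / u ^ 4 := by
  have h1 : u ^ 4 / 24 ≤ Real.exp u := by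
    have := Real.pow_div_factorial_le_exp u hu.le 4
    simpa [Nat.factorial] using this
  rw [Real.exp_neg, ← one_div, div_le_div_iff₀ (Real.exp_pos _) (by positivity)]
  linarith

lemma slit_one {u : ℂ} (h : ‖u‖ < 1) : 1 - u ∈ slitPlane := by
  left
  have h1 := (Complex.re_le_norm u)
  rw [Complex.sub_re, Complex.one_re]
  linarith

/-- the logarithm near infinity -/
noncomputable def ph (x : ι → ℝ) (c : ι → ℂ) (Z : Finset ℂ) (m : ℂ → ℤ) (v : ℂ) : ℂ :=
  ll x c (sr v) - ∑ β ∈ Z, (m β : ℂ) * log (1 - β ^ 2 / v)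

/-- its derivative -/
noncomputable def ph' (x : ι → ℝ) (c : ι → ℂ) (Z : Finset ℂ) (m : ℂ → ℤ) (v : ℂ) : ℂ :=
  deriv (ll x c) (sr v) * (1 / (2 * sr v)) -
    ∑ β ∈ Z, (m β : ℂ) * ((β ^ 2 / v ^ 2) / (1 - β ^ 2 / v))

/-- a radius -/
noncomputable def R₁ (σ : ℝ) (Z : Finset ℂ) : ℝ := 1 + 2 * (σ + 1) ^ 2 + 2 * ∑ β ∈ Z, ‖β ^ 2‖

lemma R₁_ge (σ : ℝ) (Z : Finset ℂ) : 1 ≤ R₁ σ Z ∧ 2 * (σ + 1) ^ 2 < R₁ σ Z ∧
    ∀ β ∈ Z, 2 * ‖β ^ 2‖ < R₁ σ Z := by
  have h0 : 0 ≤ ∑ β ∈ Z, ‖β ^ 2‖ := Finset.sum_nonneg fun _ _ => norm_nonneg _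
  have h2 := sq_nonneg (σ + 1)
  unfold R₁
  refine ⟨by linarith, by linarith, fun β hβ => ?_⟩
  have h1 := Finset.single_le_sum (f := fun β : ℂ => ‖β ^ 2‖) (fun β _ => norm_nonneg _) hβ
  linarith

lemma sr_far {σ : ℝ} {Z : Finset ℂ} {v : ℂ} (hv : 0 < v.re) (h : R₁ σ Z ≤ ‖v‖) :
    σ + 1 < (sr v).re := by
  have h1 := Q_norm (sr_mem hv)
  have h2 := Q_pos (sr_mem hv)
  rw [sr_norm hv] at h1
  have h3 := (R₁_ge σ Z).2.1
  have h4 : (σ + 1) ^ 2 < (sr v).re ^ 2 := by linarith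
  exact lt_of_pow_lt_pow_left₀ 2 h2.le h4

namespace GD

lemma ph_deriv (D : GD x c δ σ) {v : ℂ} (hv : 0 < v.re) (h : R₁ σ Z ≤ ‖v‖) :
    HasDerivAt (ph x c Z m) (ph' x c Z m v) v := by
  have h1 := sr_far hv h
  have h2 : HasDerivAt (fun v => ll x c (sr v)) (deriv (ll x c) (sr v) * (1 / (2 * sr v))) v :=
    HasDerivAt.comp v (D.ll_diff (by linarith)).hasDerivAt (sr_deriv hv)
  have hv0 : v ≠ 0 := Pool.Agent.TH942.SL.ne_zero' hv
  refine h2.sub (HasDerivAt.fun_sum fun β hβ => ?_)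
  have h3 : ‖β ^ 2 / v‖ < 1 := by
    have h4 := (R₁_ge σ Z).2.2 β hβ
    have h5 : 0 < ‖v‖ := norm_pos_iff.2 hv0
    rw [norm_div, div_lt_one h5]
    have := norm_nonneg (β ^ 2)
    linarith
  have h4 : HasDerivAt (fun v : ℂ => 1 - β ^ 2 / v) (β ^ 2 / v ^ 2) v := by
    have e1 := ((hasDerivAt_inv hv0).const_mul (β ^ 2)).const_sub 1
    refine (e1.congr_deriv ?_).congr_of_eventuallyEq (Eventually.of_forall fun z => ?_)
    · field_simp
    · simp only [div_eq_mul_inv]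
  exact (h4.clog (slit_one h3)).const_mul _

lemma ph'_le (D : GD x c δ σ) : ∃ B : ℝ, 0 ≤ B ∧ ∀ v : ℂ, 0 < v.re → R₁ σ Z ≤ ‖v‖ →
    ‖ph' x c Z m v‖ ≤ B * (‖v‖ ^ 2)⁻¹ := by
  have hS := S₀_nonneg (x := x) (c := c) (σ := σ)
  have hδ := D.δ0
  have hN : 0 ≤ ∑ β ∈ Z, ‖(m β : ℂ)‖ * (2 * ‖β ^ 2‖) := Finset.sum_nonneg fun β _ => by positivity
  refine ⟨S₀ x c σ * Real.exp (δ * (σ + 1)) * (96 / δ ^ 4) +
    ∑ β ∈ Z, ‖(m β : ℂ)‖ * (2 * ‖β ^ 2‖), by positivity, fun v hv h => ?_⟩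
  have h1 := sr_far hv h
  have hR := R₁_ge σ Z
  have hv1 : 1 ≤ ‖v‖ := hR.1.trans h
  have hv0 : 0 < ‖v‖ := by linarith
  set w : ℂ := sr v with hw
  have hwn : ‖w‖ ^ 2 = ‖v‖ := sr_norm hv
  have hw1 : 1 ≤ ‖w‖ := by
    have := norm_nonneg w
    nlinarith
  have hwre : ‖v‖ ≤ 2 * w.re ^ 2 := by
    rw [← hwn]
    exact Q_norm (sr_mem hv)
  have hwpos : 0 < w.re := Q_pos (sr_mem hv)
  have e1 : ‖deriv (ll x c) w * (1 / (2 * w))‖ ≤
      S₀ x c σ * Real.exp (δ * (σ + 1)) * (96 / δ ^ 4) * (‖v‖ ^ 2)⁻¹ := by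
    have a1 := D.ll_deriv_le h1
    have a2 : ‖(1 / (2 * w) : ℂ)‖ ≤ 1 := by
      rw [norm_div, norm_one, norm_mul, Complex.norm_ofNat, div_le_one (by positivity)]
      linarith
    have a3 : Real.exp (-(δ * (w.re - σ - 1))) ≤ Real.exp (δ * (σ + 1)) *
        ((96 / δ ^ 4) * (‖v‖ ^ 2)⁻¹) := by
      have b1 : -(δ * (w.re - σ - 1)) = δ * (σ + 1) + -(δ * w.re) := by ring
      rw [b1, Real.exp_add]
      refine mul_le_mul_of_nonneg_left ?_ (Real.exp_pos _).le
      refine (exp_four (by positivity)).trans ?_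
      have b2 : ‖v‖ ^ 2 ≤ 4 * w.re ^ 4 := by
        have := pow_le_pow_left₀ hv0.le hwre 2
        calc ‖v‖ ^ 2 ≤ (2 * w.re ^ 2) ^ 2 := this
          _ = _ := by ring
      rw [mul_pow, div_eq_mul_inv, div_eq_mul_inv, mul_inv]
      have b3 : (w.re ^ 4)⁻¹ ≤ 4 * (‖v‖ ^ 2)⁻¹ := by
        rw [inv_le_iff_one_le_mul₀ (by positivity), ← div_eq_mul_inv, div_mul_eq_mul_div,
          le_div_iff₀ (by positivity)]
        linarith
      calc 24 * ((δ ^ 4)⁻¹ * (w.re ^ 4)⁻¹) ≤ 24 * ((δ ^ 4)⁻¹ * (4 * (‖v‖ ^ 2)⁻¹)) := by gcongr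
        _ = _ := by ring
    calc _ ≤ (S₀ x c σ * Real.exp (-(δ * (w.re - σ - 1)))) * 1 := by
          rw [norm_mul]
          gcongr
      _ ≤ (S₀ x c σ * (Real.exp (δ * (σ + 1)) * ((96 / δ ^ 4) * (‖v‖ ^ 2)⁻¹))) * 1 := by gcongr
      _ = _ := by ring
  have e2 : ‖∑ β ∈ Z, (m β : ℂ) * ((β ^ 2 / v ^ 2) / (1 - β ^ 2 / v))‖ ≤
      (∑ β ∈ Z, ‖(m β : ℂ)‖ * (2 * ‖β ^ 2‖)) * (‖v‖ ^ 2)⁻¹ := by
    rw [Finset.sum_mul]
    refine (norm_sum_le _ _).trans (Finset.sum_le_sum fun β hβ => ?_)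
    have a1 : ‖β ^ 2 / v‖ ≤ 1 / 2 := by
      have h4 := (R₁_ge σ Z).2.2 β hβ
      rw [norm_div, div_le_iff₀ hv0]
      linarith
    have a2 : 1 / 2 ≤ ‖1 - β ^ 2 / v‖ := by
      have := norm_sub_norm_le (1 : ℂ) (β ^ 2 / v)
      rw [norm_one] at this
      linarith
    rw [norm_mul, norm_div, norm_div, norm_pow v]
    have a3 : ‖β ^ 2‖ / ‖v‖ ^ 2 / ‖1 - β ^ 2 / v‖ ≤ ‖β ^ 2‖ / ‖v‖ ^ 2 / (1 / 2) := by
      gcongr
    calc _ ≤ ‖(m β : ℂ)‖ * (‖β ^ 2‖ / ‖v‖ ^ 2 / (1 / 2)) := by gcongr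
      _ = _ := by ring
  unfold ph'
  refine (norm_sub_le _ _).trans ((add_le_add e1 e2).trans (le_of_eq ?_))
  ring

/-- **continuation ⟹ expansion** -/
theorem up (D : GD x c δ σ) [Countable ι] (hZ : ∀ β ∈ Z, β ∈ Q 0) {H : ℂ → ℂ}
    (hH : ∀ s ∈ Q 0, DifferentiableAt ℂ H s ∧ H s ≠ 0) {σ' : ℝ} (hσ' : σ' ≤ σ + 1)
    (he : ∀ s ∈ Q 0, σ' < s.re → exp (ll x c s) = H s * ∏ β ∈ Z, (s - β) ^ m β) :
    Exps (G x c) Z m := by
  classical
  intro ε₀ hε₀
  -- the function in the plane of `v = s²`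
  set K : ℂ → ℂ := fun v => H (sr v) * ∏ β ∈ Z, (v / (sr v + β)) ^ m β with hK
  have hadd : ∀ v : ℂ, 0 < v.re → ∀ β ∈ Z, sr v + β ≠ 0 := fun v hv β hβ h0 => by
    have h1 := Q_pos (hZ β hβ)
    have h2 := congrArg Complex.re h0
    have h3 := Q_pos (sr_mem hv)
    rw [Complex.add_re, Complex.zero_re] at h2
    linarith
  have hKd : ∀ v : ℂ, 0 < v.re → DifferentiableAt ℂ K v ∧ K v ≠ 0 := by
    intro v hv
    have hv0 : v ≠ 0 := Pool.Agent.TH942.SL.ne_zero' hv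
    have hsr := (sr_deriv hv).differentiableAt
    obtain ⟨h1, h2⟩ := hH _ (sr_mem hv)
    constructor
    · refine (DifferentiableAt.comp v h1 hsr).mul (DifferentiableAt.fun_finsetProd fun β hβ => ?_)
      have h3 := hadd v hv β hβ
      exact DifferentiableAt.zpow (DifferentiableAt.div (by fun_prop) (hsr.add_const _) h3)
        (Or.inl (div_ne_zero hv0 h3))
    · exact mul_ne_zero h2 (Finset.prod_ne_zero_iff.2 fun β hβ =>
        zpow_ne_zero _ (div_ne_zero hv0 (hadd v hv β hβ)))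
  have hfar : ∀ v : ℂ, 0 < v.re → R₁ σ Z ≤ ‖v‖ → K v = exp (ph x c Z m v) := by
    intro v hv h
    have hv0 : v ≠ 0 := Pool.Agent.TH942.SL.ne_zero' hv
    have hvn : 0 < ‖v‖ := norm_pos_iff.2 hv0
    have h1 := sr_far hv h
    have h2 := he _ (sr_mem hv) (by linarith)
    unfold ph
    rw [sub_eq_add_neg, ← Finset.sum_neg_distrib, Complex.exp_add, h2, Complex.exp_sum, mul_assoc,
      ← Finset.prod_mul_distrib, hK]
    simp only
    congr 1
    refine Finset.prod_congr rfl fun β hβ => ?_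
    have h3 : ‖β ^ 2 / v‖ < 1 := by
      have h4 := (R₁_ge σ Z).2.2 β hβ
      rw [norm_div, div_lt_one hvn]
      have := norm_nonneg (β ^ 2)
      linarith
    have h4 : (1 : ℂ) - β ^ 2 / v ≠ 0 := slitPlane_ne_zero (slit_one h3)
    rw [← mul_neg, Complex.exp_int_mul, Complex.exp_neg, Complex.exp_log h4, ← mul_zpow]
    congr 1
    have h5 := sr_sq hv
    have h6 := hadd v hv β hβ
    have h7 : (1 : ℂ) - β ^ 2 / v = (sr v - β) * (sr v + β) / v := by
      rw [eq_div_iff hv0, sub_mul, div_mul_cancel₀ _ hv0]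
      linear_combination -h5
    have h8 : sr v - β ≠ 0 := fun h9 => h4 (by rw [h7, h9]; simp)
    rw [h7]
    field_simp
  -- the identity
  have hid : ∀ v ∈ {v : ℂ | tc σ Z < v.re},
      exp (lap (fun t => gg x c Z m t / t) v) = K v := by
    have ht0 : 0 ≤ tc σ Z := by
      have := tc_ge' σ Z
      nlinarith [sq_nonneg σ]
    refine ident (isOpen_lt continuous_const Complex.continuous_re) (convex_halfSpace_re_gt _)
      (R := max (tc σ Z) (R₁ σ Z)) (fun v hv => (D.gg_bd.diff hv).cexp)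
      (fun v hv => (hKd v (lt_of_le_of_lt ht0 hv)).1) fun y hy => ?_
    have hy1 : tc σ Z < y := (le_max_left _ _).trans_lt hy
    have hy2 : R₁ σ Z < y := (le_max_right _ _).trans_lt hy
    have hy0 : 0 < y := by linarith
    refine ⟨by simpa using hy1, ?_⟩
    set r : ℝ := Real.sqrt y with hr
    have hr0 : 0 < r := Real.sqrt_pos.2 hy0
    have hr2 : r ^ 2 = y := Real.sq_sqrt hy0.le
    have hyr : (y : ℂ) = (r : ℂ) ^ 2 := by
      rw [← hr2]
      push_cast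
      rfl
    have hyre : 0 < ((y : ℝ) : ℂ).re := by simpa using hy0
    have hyn : R₁ σ Z ≤ ‖((y : ℝ) : ℂ)‖ := by
      rw [Complex.norm_real, Real.norm_of_nonneg hy0.le]
      exact hy2.le
    have h1 := sr_far hyre hyn
    have h2 : sr ((y : ℝ) : ℂ) = r := by rw [hyr, sr_real hr0]
    rw [h2, Complex.ofReal_re] at h1
    have h3 := D.gg_lap (Z := Z) (m := m) (r := r) (by linarith) (by rw [hr2]; exact hy1)
    rw [hfar _ hyre hyn]
    unfold ph
    rw [h2, hyr, h3, sub_eq_add_neg, ← Finset.sum_neg_distrib, Complex.exp_add, Complex.exp_sum]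
    congr 1
    refine Finset.prod_congr rfl fun β hβ => ?_
    have h4 : ‖β ^ 2 / (r : ℂ) ^ 2‖ < 1 := by
      have h5 := (R₁_ge σ Z).2.2 β hβ
      rw [← hyr, norm_div, Complex.norm_real, Real.norm_of_nonneg hy0.le, div_lt_one hy0]
      have := norm_nonneg (β ^ 2)
      linarith
    rw [← mul_neg, Complex.exp_int_mul, Complex.exp_neg,
      Complex.exp_log (slitPlane_ne_zero (slit_one h4))]
  -- the logarithmic derivative
  set κ : ℂ → ℂ := fun v => -(deriv K v / K v) with hκ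
  have hKo : ∀ v : ℂ, 0 < v.re → AnalyticAt ℂ K v := by
    intro v hv
    have ho : IsOpen {v : ℂ | 0 < v.re} := isOpen_lt continuous_const Complex.continuous_re
    have h1 : DifferentiableOn ℂ K {v : ℂ | 0 < v.re} := fun z hz =>
      (hKd z hz).1.differentiableWithinAt
    exact h1.analyticAt (ho.mem_nhds hv)
  have hκd : ∀ v : ℂ, 0 < v.re → DifferentiableAt ℂ κ v := fun v hv =>
    ((hKo v hv).deriv.differentiableAt.div (hKd v hv).1 (hKd v hv).2).neg
  have hlap : ∀ v : ℂ, tc σ Z < v.re → lap (gg x c Z m) v = κ v := by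
    intro v hv
    have ht0 : 0 ≤ tc σ Z := by
      have := tc_ge' σ Z
      nlinarith [sq_nonneg σ]
    have h1 := (D.gg_bd (Z := Z) (m := m)).deriv hv
    have h2 : lap (fun t => t * (gg x c Z m t / t)) v = lap (gg x c Z m) v := by
      unfold lap
      refine setIntegral_congr_fun measurableSet_Ioi fun t ht => ?_
      have ht1 : (t : ℂ) ≠ 0 := by exact_mod_cast (ne_of_gt ht)
      simp only
      rw [mul_div_cancel₀ _ ht1]
    rw [h2] at h1
    have h3 : K =ᶠ[𝓝 v] fun v => exp (lap (fun t => gg x c Z m t / t) v) := by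
      have ho : IsOpen {v : ℂ | tc σ Z < v.re} := isOpen_lt continuous_const Complex.continuous_re
      filter_upwards [ho.mem_nhds hv] with z hz
      exact (hid z hz).symm
    have h4 : HasDerivAt K (exp (lap (fun t => gg x c Z m t / t) v) *
        (-lap (gg x c Z m) v)) v := (h1.cexp).congr_of_eventuallyEq h3
    have h5 := hKd v (by linarith)
    rw [hκ]
    simp only
    rw [h4.deriv, hid v hv]
    field_simp [h5.2]
  obtain ⟨B, hB, hBl⟩ := D.ph'_le (Z := Z) (m := m)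
  set R := R₁ σ Z with hR
  have hR1 : 1 ≤ R := (R₁_ge σ Z).1
  have hκfar : ∀ v : ℂ, 0 < v.re → R < ‖v‖ → ‖κ v‖ ≤ B * (‖v‖ ^ 2)⁻¹ := by
    intro v hv h
    have h3 : K =ᶠ[𝓝 v] fun v => exp (ph x c Z m v) := by
      have ho : IsOpen {v : ℂ | 0 < v.re ∧ R < ‖v‖} :=
        (isOpen_lt continuous_const Complex.continuous_re).inter
          (isOpen_lt continuous_const continuous_norm)
      filter_upwards [ho.mem_nhds ⟨hv, h⟩] with z hz
      exact hfar z hz.1 hz.2.le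
    have h4 : HasDerivAt K (exp (ph x c Z m v) * ph' x c Z m v) v :=
      ((D.ph_deriv hv h.le).cexp).congr_of_eventuallyEq h3
    have h5 : κ v = -ph' x c Z m v := by
      rw [hκ]
      simp only
      rw [h4.deriv, hfar v hv h.le]
      have := Complex.exp_ne_zero (ph x c Z m v)
      field_simp
    rw [h5, norm_neg]
    exact hBl v hv h.le
  -- the bound on the lines
  set ε : ℝ := ε₀ with hε
  obtain ⟨C₁, hC₁⟩ := ((isCompact_closedBall (0 : ℂ) R).inter_right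
    (isClosed_le continuous_const Complex.continuous_re : IsClosed {v : ℂ | ε ≤ v.re})
    ).exists_bound_of_continuousOn (f := κ) fun v hv =>
      (hκd v (lt_of_lt_of_le hε₀ hv.2)).continuousAt.continuousWithinAt
  set B' : ℝ := B * 4 + |C₁| * (1 + R) ^ (2 : ℝ) with hB'
  have hB'0 : 0 ≤ B' := by positivity
  have hκb : ∀ v : ℂ, ε ≤ v.re → ‖κ v‖ ≤ B' * (1 + |v.im|) ^ (-(2 : ℝ)) := by
    intro v hv
    have hv0 : 0 < v.re := hε₀.trans_le hv
    have hi : 0 < 1 + |v.im| := by positivity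
    have him := Complex.abs_im_le_norm v
    rcases lt_or_ge R ‖v‖ with h | h
    · refine (hκfar v hv0 h).trans ?_
      have hv1 : 1 ≤ ‖v‖ := hR1.trans h.le
      have e1 : (‖v‖ ^ 2)⁻¹ ≤ 4 * (1 + |v.im|) ^ (-(2 : ℝ)) := by
        rw [Real.rpow_neg hi.le, show (2 : ℝ) = ((2 : ℕ) : ℝ) by norm_num, Real.rpow_natCast,
          inv_le_iff_one_le_mul₀ (by positivity), ← div_eq_mul_inv, div_mul_eq_mul_div,
          le_div_iff₀ (by positivity)]
        nlinarith [abs_nonneg v.im]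
      calc _ ≤ B * (4 * (1 + |v.im|) ^ (-(2 : ℝ))) := by gcongr
        _ = (B * 4) * (1 + |v.im|) ^ (-(2 : ℝ)) := by ring
        _ ≤ _ := by
          refine mul_le_mul_of_nonneg_right ?_ (by positivity)
          rw [hB']
          have : 0 ≤ |C₁| * (1 + R) ^ (2 : ℝ) := by positivity
          linarith
    · have e1 := hC₁ v ⟨by rwa [Metric.mem_closedBall, dist_zero_right], hv⟩
      have e2 : 1 ≤ (1 + R) ^ (2 : ℝ) * (1 + |v.im|) ^ (-(2 : ℝ)) := by
        rw [Real.rpow_neg hi.le, ← div_eq_mul_inv, le_div_iff₀ (by positivity), one_mul]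
        exact Real.rpow_le_rpow hi.le (by linarith) (by norm_num)
      calc _ ≤ |C₁| * 1 := by
            rw [mul_one]
            exact e1.trans (le_abs_self _)
        _ ≤ |C₁| * ((1 + R) ^ (2 : ℝ) * (1 + |v.im|) ^ (-(2 : ℝ))) := by gcongr
        _ = (|C₁| * (1 + R) ^ (2 : ℝ)) * (1 + |v.im|) ^ (-(2 : ℝ)) := by ring
        _ ≤ _ := by
          refine mul_le_mul_of_nonneg_right ?_ (by positivity)
          rw [hB']
          have : 0 ≤ B * 4 := by positivity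
          linarith
  -- inversion, and shift of the line
  set X : ℝ := max ε (tc σ Z + 2) with hX
  have hXε : ε ≤ X := le_max_left _ _
  have hXt : tc σ Z + 2 ≤ X := le_max_right _ _
  have hinv : ∀ y : ℝ, gg x c Z m y = V X (fun z => exp (z * y) * κ z) := by
    intro y
    refine inv_lap (D.gg_cont) (fun y hy => gg_zero hy) (K := Kc x c δ σ Z m)
      (x₀ := tc σ Z + 1) D.Kc_nonneg (fun t ht => ?_) (by linarith) (fun v hv => ?_) ?_ y
    · refine D.gg_le ht |>.trans ?_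
      have e1 : t ≤ Real.exp t := by
        have := Real.add_one_le_exp t
        linarith
      have hk := D.Kc_nonneg (Z := Z) (m := m)
      calc Kc x c δ σ Z m * t * Real.exp (tc σ Z * t) ≤
            Kc x c δ σ Z m * Real.exp t * Real.exp (tc σ Z * t) := by gcongr
        _ = _ := by
          rw [mul_assoc, ← Real.exp_add]
          congr 2
          ring
    · exact hlap v (by rw [hv]; linarith)
    · exact line_int (p := 2) (B := B') (by norm_num)
        (fun s hs => (hκd s (by rw [hs]; linarith)).continuousAt)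
        (fun s hs => hκb s (by rw [hs]; exact hXε))
  have hsh : ∀ y : ℝ, 0 < y → V ε (fun z => exp (z * y) * κ z) =
      V X (fun z => exp (z * y) * κ z) := by
    intro y hy
    refine shift (p := 2) (by norm_num) hXε (B := Real.exp (X * y) * B') (fun s hs _ => ?_)
      fun s hs hs2 => ?_
    · exact DifferentiableAt.mul (by fun_prop) (hκd s (lt_of_lt_of_le hε₀ hs))
    · rw [norm_mul, Complex.norm_exp, Complex.re_mul_ofReal, mul_assoc]
      refine mul_le_mul (Real.exp_le_exp.2 ?_) (hκb s hs) (norm_nonneg _) (Real.exp_pos _).le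
      exact mul_le_mul_of_nonneg_right hs2 hy.le
  set Ip : ℝ := ∫ t : ℝ, (1 + |t|) ^ (-(2 : ℝ)) with hIp
  have hIp0 : 0 ≤ Ip := integral_nonneg fun t => by positivity
  refine ⟨(2 * Real.pi)⁻¹ * (B' * Ip) + Mm Z m, ?_⟩
  filter_upwards [eventually_gt_atTop 0] with y hy
  have a3 := norm_V_le (H := fun z => exp (z * y) * κ z) (c := ε)
    (g := fun t => (Real.exp (ε * y) * B') * (1 + |t|) ^ (-(2 : ℝ)))
    ((decay_int (p := 2) (by norm_num)).const_mul _)
    fun t => by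
      have e1 := hκb (ε + t * I) (by simp)
      have e2 : ((ε : ℂ) + t * I).im = t := by simp
      have e3 : ((ε : ℂ) + t * I).re = ε := by simp
      rw [e2] at e1
      rw [norm_mul, Complex.norm_exp, Complex.re_mul_ofReal, e3, mul_assoc]
      exact mul_le_mul_of_nonneg_left e1 (Real.exp_pos _).le
  rw [hsh y hy, ← hinv, integral_const_mul] at a3
  have a4 : G x c y + ∑ β ∈ Z, (m β : ℂ) * exp (β ^ 2 * y) =
      gg x c Z m y + ∑ β ∈ Z, (m β : ℂ) := by
    rw [gg_eq hy.le]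
    ring
  have a5 : 1 ≤ Real.exp (ε * y) := Real.one_le_exp (by positivity)
  have a6 := Mm_nonneg (Z := Z) (m := m)
  rw [a4]
  calc _ ≤ (2 * Real.pi)⁻¹ * (Real.exp (ε * y) * B' * Ip) + Mm Z m :=
        (norm_add_le _ _).trans (add_le_add a3 Mm_ge)
    _ ≤ (2 * Real.pi)⁻¹ * (Real.exp (ε * y) * B' * Ip) + Mm Z m * Real.exp (ε * y) := by
        gcongr
        exact le_mul_of_one_le_right a6 a5
    _ = _ := by ring

end GD

end Pool.Agent.V11291.GS
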